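import Pool.Agent.Helper82K9.TF.TF4
import Pool.Agent.Helper82K9.TF.TF5

/-! Families of moduli of size at most a constant times `N`, all orders of the energy. -/

set_option autoImplicit false

namespace Pool.Agent.Helper82K9.TF

open Finset
open Pool.Agent.TH212.EH (En)
open Pool.Agent.R501.LP (LpG)

theorem En_zero {ι : Type} [Fintype ι] (v : ι → ℤ) : En 0 v = 1 := by
  unfold En
  rw [Nat.card_eq_one_iff_unique]
  refine ⟨⟨fun a b => ?_⟩, ⟨⟨(fun i => i.elim0, fun i => i.elim0), by simp⟩⟩⟩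
  apply Subtype.ext
  apply Prod.ext
  · funext i; exact i.elim0
  · funext i; exact i.elim0

theorem log_pow_lt (C : ℕ) : ∃ n : ℕ, ∀ N : ℕ, n ≤ N → Real.log N ^ C < N := by
  have h1 : Filter.Tendsto (fun x : ℝ => Real.log x ^ (C : ℝ) / x ^ (1 : ℝ)) Filter.atTop (nhds 0) :=
    (isLittleO_log_rpow_rpow_atTop (C : ℝ) one_pos).tendsto_div_nhds_zero
  have h2 : Filter.Tendsto (fun N : ℕ => Real.log (N : ℝ) ^ (C : ℝ) / (N : ℝ) ^ (1 : ℝ)) Filter.atTop (nhds 0) :=
    h1.comp tendsto_natCast_atTop_atTop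
  obtain ⟨n, hn⟩ := Filter.eventually_atTop.1 (h2.eventually_lt_const one_pos)
  refine ⟨n + 1, fun N hN => ?_⟩
  have h3 := hn N (by omega)
  have hN0 : (0 : ℝ) < N := by exact_mod_cast (by omega : 0 < N)
  rw [Real.rpow_one, div_lt_one hN0, Real.rpow_natCast] at h3
  exact h3

open Classical in
/-- families with values up to `B N` -/
theorem lp_familyB (h B C A U : ℕ) (ε : ℝ) (hε : 0 < ε) (hε1 : ε ≤ 1) : ∃ N₀ : ℕ, ∀ N : ℕ, N₀ ≤ N →
    ∀ (ι : Type) [Fintype ι] (v : ι → ℤ), (∀ i, |v i| ≤ B * (N : ℤ)) →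
    (En h v : ℝ) * N ≤ Real.log N ^ C * (Fintype.card ι : ℝ) ^ (2 * h) →
    ((univ.filter (fun i => 0 < v i ∧ ¬ LpG ε A (v i).toNat)).card : ℝ) ≤ Fintype.card ι / Real.log N ^ U := by
  rcases Nat.eq_zero_or_pos h with h0 | hh
  · subst h0
    obtain ⟨n, hn⟩ := log_pow_lt C
    refine ⟨n, fun N hN ι _ v _ hE => ?_⟩
    rw [En_zero, mul_zero, pow_zero] at hE
    push_cast at hE
    have := hn N hN
    linarith
  obtain ⟨n1, h1⟩ := lp_family h (C + 1) A U hh ε hε hε1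
  obtain ⟨n2, h2⟩ := ev_pow_log ((B : ℝ) + 1) 1 le_rfl
  refine ⟨n1 + n2 + 1, fun N hN ι _ v hv hE => ?_⟩
  obtain ⟨hL, hL1⟩ := h2 N (by omega)
  rw [pow_one] at hL
  have hN0 : (0 : ℝ) < N := by exact_mod_cast (by omega : 0 < N)
  have hle : N ≤ (B + 1) * N := Nat.le_mul_of_pos_left _ (by omega)
  have hlog : Real.log (N : ℝ) ≤ Real.log (((B + 1) * N : ℕ) : ℝ) :=
    Real.log_le_log hN0 (by exact_mod_cast hle)
  have hL0 : 0 < Real.log (N : ℝ) := by linarith
  have h3 := h1 ((B + 1) * N) (by omega) ι v (fun i => (hv i).trans (by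
    push_cast
    have : (0 : ℤ) ≤ N := Int.natCast_nonneg _
    nlinarith)) (by
    calc (En h v : ℝ) * (((B + 1) * N : ℕ) : ℝ) = ((B : ℝ) + 1) * ((En h v : ℝ) * N) := by push_cast; ring
      _ ≤ Real.log N * (Real.log N ^ C * (Fintype.card ι : ℝ) ^ (2 * h)) := by
          apply mul_le_mul hL hE (by positivity) hL0.le
      _ = Real.log N ^ (C + 1) * (Fintype.card ι : ℝ) ^ (2 * h) := by rw [pow_succ]; ring
      _ ≤ _ := by
          apply mul_le_mul_of_nonneg_right _ (by positivity)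
          exact pow_le_pow_left₀ hL0.le hlog _)
  refine h3.trans ?_
  apply div_le_div_of_nonneg_left (by positivity) (by positivity)
  exact pow_le_pow_left₀ hL0.le hlog _

end Pool.Agent.Helper82K9.TF
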