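import Pool.Agent.Helper82K9.TF.TF3
import Pool.Agent.H373R2.NB.Weyl

/-! The energy of the values of a polynomial, uniformly in all coefficients. -/

set_option autoImplicit false

namespace Pool.Agent.Helper82K9.TF

open Finset
open Pool.Agent.H807R2.Dav (ee)
open Pool.Agent.TH212.EH (En)

/-- **the energy of the values of a polynomial** -/
theorem poly_energy1 (d : ℕ) (hd : 1 ≤ d) : ∃ (h : ℕ) (A : ℝ), 1 ≤ h ∧ 1 ≤ A ∧
    ∀ (X : ℕ), 1 ≤ X → ∀ f : Polynomial ℤ, f.natDegree ≤ d → f.coeff d ≠ 0 →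
    (En h (fun i : Fin X => f.eval ((i : ℕ) : ℤ)) : ℝ) * (X ^ d : ℕ) ≤
      2 * (A * |(f.coeff d : ℝ)|) ^ 2 * (X : ℝ) ^ (2 * h) := by
  classical
  obtain ⟨c, m, hc, hIW⟩ := Pool.Agent.H373R2.NB.IW_all d hd
  obtain ⟨A₁, hA₁⟩ : ∃ A₁ : ℝ, A₁ = c * d.factorial := ⟨_, rfl⟩
  have hcR : (1 : ℝ) ≤ c := by exact_mod_cast hc
  have hfac : (1 : ℝ) ≤ d.factorial := by exact_mod_cast Nat.factorial_pos d
  have hA1 : 1 ≤ A₁ := by
    rw [hA₁]
    exact one_le_mul_of_one_le_of_one_le hcR hfac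
  have hA0 : 0 < A₁ := by linarith
  refine ⟨3 * m + 1, 81 * A₁ ^ 3, by omega, ?_, ?_⟩
  · have h1 : 1 ≤ A₁ ^ 3 := one_le_pow₀ hA1
    linarith
  intro X hX f hf1 hf2
  obtain ⟨b, hb⟩ : ∃ b : ℕ, b = (f.coeff d).natAbs := ⟨_, rfl⟩
  have hb1 : 1 ≤ b := by rw [hb]; exact Int.natAbs_pos.2 hf2
  have hbR : (1 : ℝ) ≤ b := by exact_mod_cast hb1
  have hb0 : (0 : ℝ) < b := by linarith
  have habs : |(f.coeff d : ℝ)| = b := by
    rw [hb, Nat.cast_natAbs, Int.cast_abs]
  rw [habs]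
  have hX0 : (0 : ℝ) < X := by exact_mod_cast hX
  have hXd : (1 : ℝ) ≤ (X : ℝ) ^ d := one_le_pow₀ (by exact_mod_cast hX)
  have hM : 1 ≤ X ^ d := Nat.one_le_pow _ _ hX
  have key := energy_of_count (fun i : Fin X => f.eval ((i : ℕ) : ℤ)) hM (K := 81 * A₁ ^ 3 * b)
    (3 * m + 1) (by omega) (by
    intro u hu
    rw [Fintype.card_fin]
    have hu0 : 0 < u := by linarith
    obtain ⟨T, hT⟩ : ∃ T : Finset ℕ, T = (range (X ^ d)).filter (fun t : ℕ => (X : ℝ) ≤
      u * ‖∑ i : Fin X, ee ((t : ℝ) * (((f.eval ((i : ℕ) : ℤ) : ℤ) : ℝ) / (X ^ d : ℕ)))‖) := ⟨_, rfl⟩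
    rw [← hT]
    obtain ⟨Q, hQ⟩ : ∃ Q : ℝ, Q = A₁ * u ^ m := ⟨_, rfl⟩
    have hQ1 : 1 ≤ Q := by rw [hQ]; exact one_le_mul_of_one_le_of_one_le hA1 (one_le_pow₀ hu)
    have hQ0 : 0 < Q := by linarith
    obtain ⟨δ, hδ⟩ : ∃ δ : ℝ, δ = 2 * Q / (X : ℝ) ^ d := ⟨_, rfl⟩
    have hδ0 : 0 < δ := by rw [hδ]; positivity
    obtain ⟨Q₀, hQ₀⟩ : ∃ Q₀ : ℕ, Q₀ = ⌊Q⌋₊ := ⟨_, rfl⟩
    have hQ₀le : (Q₀ : ℝ) ≤ Q := by rw [hQ₀]; exact Nat.floor_le hQ0.le
    have hcov : T ⊆ (Icc 1 Q₀).biUnion (fun q => (range (X ^ d)).filter (fun t =>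
        Near (X ^ d) δ t (q * b) ∧ Near (X ^ d) δ t (q * b))) := by
      intro t ht
      rw [hT, mem_filter] at ht
      have hph := Pool.Agent.H373R2.NB.Ph_poly d f hf1 ((t : ℝ) / (X ^ d : ℕ))
      obtain ⟨q, hq1, hq2, a, ha⟩ := hIW X u _ _ hX hu hph (by
        refine ht.2.trans (le_of_eq ?_)
        congr 2
        rw [← Fin.sum_univ_eq_sum_range (fun a : ℕ => Pool.Agent.Helper602.MK.ee ((t : ℝ) / (X ^ d : ℕ) *
          ((f.eval (a : ℤ) : ℤ) : ℝ))) X]
        apply sum_congr rfl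
        intro x _
        rw [Pool.Agent.H373R2.T7.mk_ee]
        congr 1
        ring)
      have hQe : (c : ℝ) * u ^ m * d.factorial = Q := by
        rw [hQ, hA₁]; ring
      rw [mem_biUnion]
      refine ⟨q * d.factorial, ?_, ?_⟩
      · rw [mem_Icc]
        refine ⟨Nat.mul_pos hq1 (Nat.factorial_pos d), ?_⟩
        rw [hQ₀]
        apply Nat.le_floor
        push_cast
        rw [← hQe]
        exact mul_le_mul_of_nonneg_right hq2 (Nat.cast_nonneg _)
      · rw [mem_filter]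
        have hlt : (c : ℝ) * u ^ m / (X : ℝ) ^ d < δ := by
          rw [hδ]
          apply div_lt_div_of_pos_right _ (by positivity)
          have e2 : (c : ℝ) * u ^ m ≤ Q := by
            rw [← hQe]
            exact le_mul_of_one_le_right (by positivity) hfac
          linarith
        have hnear : Near (X ^ d) δ t (q * d.factorial * b) := by
          rcases le_or_gt 0 (f.coeff d) with hs | hs
          · refine ⟨a, ?_⟩
            have e0 : ((b : ℕ) : ℤ) = f.coeff d := by rw [hb]; exact Int.natAbs_of_nonneg hs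
            have e0' : ((b : ℕ) : ℝ) = ((f.coeff d : ℤ) : ℝ) := by exact_mod_cast e0
            have e1 : (((q * d.factorial * b : ℕ) : ℝ) * t / (X ^ d : ℕ) - a) =
                q * ((t : ℝ) / (X ^ d : ℕ) * ((d.factorial : ℝ) * (f.coeff d : ℤ))) - a := by
              rw [← e0']
              push_cast
              ring
            rw [e1]
            exact lt_of_le_of_lt ha hlt
          · refine ⟨-a, ?_⟩
            have e0 : ((b : ℕ) : ℤ) = -f.coeff d := by rw [hb]; omega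
            have e0' : ((b : ℕ) : ℝ) = -((f.coeff d : ℤ) : ℝ) := by exact_mod_cast e0
            have e1 : (((q * d.factorial * b : ℕ) : ℝ) * t / (X ^ d : ℕ) - ((-a : ℤ) : ℝ)) =
                -(q * ((t : ℝ) / (X ^ d : ℕ) * ((d.factorial : ℝ) * (f.coeff d : ℤ))) - a) := by
              push_cast
              rw [e0']
              ring
            rw [e1, abs_neg]
            exact lt_of_le_of_lt ha hlt
        exact ⟨ht.1, hnear, hnear⟩
    have hq : ∀ q ∈ Icc 1 Q₀, (((range (X ^ d)).filter (fun t =>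
        Near (X ^ d) δ t (q * b) ∧ Near (X ^ d) δ t (q * b))).card : ℝ) ≤ 81 * Q ^ 2 * b := by
      intro q hq
      rw [mem_Icc] at hq
      have hqR : (q : ℝ) ≤ Q := le_trans (by exact_mod_cast hq.2) hQ₀le
      have hq1 : (1 : ℝ) ≤ q := by exact_mod_cast hq.1
      have hq0 : (0 : ℝ) < q := by linarith
      refine (two_near hM (Nat.mul_pos hq.1 hb1) (Nat.mul_pos hq.1 hb1) hδ0).trans ?_
      rw [Nat.gcd_self]
      push_cast
      have e1 : δ * (X : ℝ) ^ d = 2 * Q := by rw [hδ]; field_simp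
      have e2 : δ ≤ 2 * Q := by
        calc δ = δ * 1 := (mul_one _).symm
          _ ≤ δ * (X : ℝ) ^ d := mul_le_mul_of_nonneg_left hXd hδ0.le
          _ = _ := e1
      have e3 : 2 * (δ * (q * b + q * b)) + q * b = (4 * δ + 1) * (q * b) := by ring
      have e4 : (4 * δ + 1) ≤ 9 * Q := by linarith
      have e5 : (q * b : ℝ) * (4 * (δ * (X : ℝ) ^ d / (q * b)) + 1) = 8 * Q + q * b := by
        rw [e1]; field_simp; ring
      rw [e3, mul_assoc, e5]
      have e6 : 8 * Q + q * b ≤ 9 * (Q * b) := by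
        have e7 : Q ≤ Q * b := le_mul_of_one_le_right hQ0.le hbR
        have e8 : (q * b : ℝ) ≤ Q * b := mul_le_mul_of_nonneg_right hqR hb0.le
        linarith
      calc (4 * δ + 1) * (8 * Q + q * b) ≤ (9 * Q) * (9 * (Q * b)) := by
            apply mul_le_mul e4 e6 (by positivity) (by positivity)
        _ = _ := by ring
    have h4 : (T.card : ℝ) ≤ ∑ q ∈ Icc 1 Q₀, (((range (X ^ d)).filter (fun t =>
        Near (X ^ d) δ t (q * b) ∧ Near (X ^ d) δ t (q * b))).card : ℝ) := by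
      have := (card_le_card hcov).trans card_biUnion_le
      exact_mod_cast this
    refine h4.trans ((sum_le_sum hq).trans ?_)
    rw [sum_const, Nat.card_Icc, nsmul_eq_mul, Nat.add_sub_cancel]
    calc (Q₀ : ℝ) * (81 * Q ^ 2 * b) ≤ Q * (81 * Q ^ 2 * b) :=
          mul_le_mul_of_nonneg_right hQ₀le (by positivity)
      _ = 81 * A₁ ^ 3 * b * u ^ (3 * m) := by
          rw [hQ]; ring
      _ ≤ 81 * A₁ ^ 3 * b * u ^ (3 * m + 1) :=
          mul_le_mul_of_nonneg_left (pow_le_pow_right₀ hu (by omega)) (by positivity))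
  rw [Fintype.card_fin] at key
  exact key

end Pool.Agent.Helper82K9.TF
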