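import Pool.Agent.TH872.GQ.En
import Pool.Agent.H373R2.NB.WeylSum

/-! From the number of the large exponential sums of a family to its additive energy. -/

set_option autoImplicit false

namespace Pool.Agent.Helper82K9.TF

open Finset
open Pool.Agent.H807R2.Dav (ee)
open Pool.Agent.TH212.EH (En)

theorem sum_inv_sq (n : ℕ) (hn : 1 ≤ n) : (∑ i ∈ range n, 1 / ((i : ℝ) + 1) ^ 2 : ℝ) ≤ (2 : ℝ) - 1 / (n : ℝ) := by
  induction n, hn using Nat.le_induction with
  | base => norm_num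
  | succ n hn ih =>
    rw [sum_range_succ]
    have h1 : (0 : ℝ) < n := by exact_mod_cast hn
    have h3 : 1 / ((n : ℝ) + 1) ^ 2 ≤ 1 / n - 1 / (n + 1) := by
      have e : (1 : ℝ) / n - 1 / (n + 1) = 1 / (n * (n + 1)) := by field_simp; ring
      rw [e]
      apply one_div_le_one_div_of_le (by positivity)
      nlinarith
    push_cast
    linarith

theorem moment_gen {M : ℕ} (s : ℕ → ℝ) (hs0 : ∀ t, 0 ≤ s t) (hs1 : ∀ t, s t ≤ 1) {K : ℝ} (m : ℕ)
    (hm : 1 ≤ m) (hcount : ∀ u : ℝ, 1 ≤ u → (((range M).filter (fun t => 1 ≤ u * s t)).card : ℝ) ≤ K * u ^ m) :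
    ∑ t ∈ range M, s t ^ (2 * m) ≤ 2 * K ^ 2 := by
  have hK : 0 ≤ K := by
    have h1 := hcount 1 le_rfl
    rw [one_pow, mul_one] at h1
    exact le_trans (Nat.cast_nonneg _) h1
  rcases Nat.eq_zero_or_pos M with h0 | h0
  · subst h0
    rw [range_zero, sum_empty]
    positivity
  have hsort := Pool.Agent.H373R2.NB.sort_sum (fun t => s t ^ (2 * m)) (range M) (fun n => K ^ 2 * (1 / (n : ℝ) ^ 2)) (by
    intro X hX hXne
    obtain ⟨t, ht, hmin⟩ := exists_min_image X s hXne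
    refine ⟨t, ht, ?_⟩
    have hn0 : (0 : ℝ) < X.card := by exact_mod_cast card_pos.2 hXne
    rcases (hs0 t).eq_or_lt with h0 | h0
    · rw [← h0, zero_pow (by omega)]; positivity
    · have h1 : 1 ≤ 1 / s t := by rw [le_div_iff₀ h0]; linarith [hs1 t]
      have h2 := hcount (1 / s t) h1
      have h3 : X ⊆ (range M).filter (fun t' : ℕ => 1 ≤ (1 / s t) * s t') := by
        intro t' ht'
        rw [mem_filter]
        refine ⟨hX ht', ?_⟩
        have h4 := hmin t' ht'
        rw [one_div, inv_mul_eq_div, le_div_iff₀ h0, one_mul]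
        exact h4
      have h4 : (X.card : ℝ) ≤ K * (1 / s t) ^ m := le_trans (by exact_mod_cast card_le_card h3) h2
      have h5 : s t ^ m ≤ K / X.card := by
        rw [le_div_iff₀ hn0]
        rw [one_div, inv_pow, ← div_eq_mul_inv, le_div_iff₀ (by positivity)] at h4
        linarith
      calc s t ^ (2 * m) = (s t ^ m) ^ 2 := by rw [← pow_mul, mul_comm]
        _ ≤ (K / X.card) ^ 2 := pow_le_pow_left₀ (by positivity) h5 2
        _ = _ := by rw [div_pow]; ring)
  refine hsort.trans ?_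
  rw [← mul_sum, card_range]
  push_cast
  have h1 := sum_inv_sq M h0
  have h2 : (0 : ℝ) ≤ 1 / M := by positivity
  calc K ^ 2 * ∑ i ∈ range M, 1 / ((i : ℝ) + 1) ^ 2 ≤ K ^ 2 * 2 := mul_le_mul_of_nonneg_left (by linarith) (by positivity)
    _ = _ := by ring

theorem norm_ee (x : ℝ) : ‖ee x‖ = 1 := by
  rw [← Pool.Agent.H373R2.T7.mk_ee]; exact Pool.Agent.Helper602.MK.N_J5b.norm_ee x

/-- the energy of a family with few large exponential sums -/
theorem energy_of_count {ι : Type} [Fintype ι] (v : ι → ℤ) {M : ℕ} (hM : 1 ≤ M) {K : ℝ} (m : ℕ) (hm : 1 ≤ m)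
    (hcount : ∀ u : ℝ, 1 ≤ u → (((range M).filter (fun t : ℕ => (Fintype.card ι : ℝ) ≤
      u * ‖∑ i, ee ((t : ℝ) * ((v i : ℝ) / M))‖)).card : ℝ) ≤ K * u ^ m) :
    (En m v : ℝ) * M ≤ 2 * K ^ 2 * (Fintype.card ι : ℝ) ^ (2 * m) := by
  classical
  rcases isEmpty_or_nonempty ι with hι | hι
  · have h1 : En m v = 0 := by
      unfold En
      rw [Nat.card_eq_fintype_card, Fintype.card_eq_zero_iff]
      refine ⟨fun q => ?_⟩
      exact hι.elim (q.1.1 ⟨0, by omega⟩)
    rw [h1]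
    push_cast
    rw [zero_mul]
    positivity
  have hc0 : (0 : ℝ) < Fintype.card ι := by exact_mod_cast Fintype.card_pos
  obtain ⟨S, hS⟩ : ∃ S : ℕ → ℝ, S = fun t : ℕ => ‖∑ i, ee ((t : ℝ) * ((v i : ℝ) / M))‖ := ⟨_, rfl⟩
  have hS1 : ∀ t, S t ≤ Fintype.card ι := by
    intro t
    rw [hS]
    simp only
    refine (norm_sum_le _ _).trans ?_
    rw [sum_congr rfl fun i _ => norm_ee _]
    simp
  have hS0 : ∀ t, 0 ≤ S t := fun t => by rw [hS]; exact norm_nonneg _
  have h1 := moment_gen (M := M) (fun t => S t / Fintype.card ι) (fun t => div_nonneg (hS0 t) hc0.le)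
    (fun t => by rw [div_le_one hc0]; exact hS1 t) (K := K) m hm (by
      intro u hu
      refine le_trans (le_of_eq ?_) (hcount u hu)
      congr 2
      ext t
      simp only [mem_filter, and_congr_right_iff]
      intro _
      rw [mul_div_assoc', le_div_iff₀ hc0, one_mul, hS])
  have h2 := Pool.Agent.TH872.GQ.En_le m v M hM
  have h3 : ∑ t ∈ range M, (S t / Fintype.card ι) ^ (2 * m) = (∑ t ∈ range M, S t ^ (2 * m)) / (Fintype.card ι : ℝ) ^ (2 * m) := by
    rw [sum_div]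
    exact sum_congr rfl fun t _ => div_pow _ _ _
  rw [h3, div_le_iff₀ (by positivity)] at h1
  rw [mul_comm]
  refine h2.trans ?_
  rw [hS] at h1
  exact h1

/-- the energy of a subfamily -/
theorem En_sub (p : ℕ) {ι κ : Type} [Fintype ι] [Fintype κ] (w : κ → ℤ) (g : ι → κ) (hg : Function.Injective g)
    (v : ι → ℤ) (hv : ∀ i, v i = w (g i)) : En p v ≤ En p w := by
  unfold En
  apply Nat.card_le_card_of_injective (fun q => ⟨(fun i => g (q.1.1 i), fun i => g (q.1.2 i)), by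
    have := q.2
    simp only [hv] at this
    exact this⟩)
  intro q q' h
  rw [Subtype.mk.injEq, Prod.mk.injEq] at h
  apply Subtype.ext
  apply Prod.ext
  · funext i
    exact hg (congrFun h.1 i)
  · funext i
    exact hg (congrFun h.2 i)

/-- the geometric sum -/
theorem geo_far (L : ℕ) (t δ : ℝ) (hδ : 0 < δ) (h : ∀ n : ℤ, δ ≤ |t - n|) :
    ‖∑ n ∈ range L, ee (n * t)‖ ≤ 1 / (2 * δ) := by
  have h2 := Pool.Agent.Helper602.MK.N_J5b.KD_far L t δ hδ h
  unfold Pool.Agent.Helper602.MK.N_J5b.KD at h2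
  have e : ∀ n ∈ range L, ee (n * t) = Pool.Agent.Helper602.MK.ee (n * t) := fun n _ =>
    (Pool.Agent.H373R2.T7.mk_ee _).symm
  rw [sum_congr rfl e]
  have h0 := norm_nonneg (∑ j ∈ range L, Pool.Agent.Helper602.MK.ee ((j : ℝ) * t))
  have h3 : (0 : ℝ) ≤ 1 / (2 * δ) := by positivity
  have h4 : (1 / (2 * δ)) ^ 2 = 1 / (4 * δ ^ 2) := by
    rw [one_div_pow, mul_pow]; norm_num
  rw [← h4] at h2
  exact (abs_le_of_sq_le_sq' h2 h3).2

end Pool.Agent.Helper82K9.TF
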