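import Mathlib

/-! The energy of the union of few arithmetic progressions with coprime differences. -/

set_option autoImplicit false

namespace Pool.Agent.Helper82K9.TF

open Finset



/-- `b t / M` is within `δ` of an integer -/
def Near (M : ℕ) (δ : ℝ) (t b : ℕ) : Prop := ∃ n : ℤ, |(b : ℝ) * t / M - n| < δ

open Classical in
/-- at most `2 W + 1` residues lie near a given one -/
theorem card_near_one {M : ℕ} (hM : 1 ≤ M) (T : Finset ℕ) (hT : T ⊆ range M) (t₀ : ℕ) (W : ℕ)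
    (h : ∀ t ∈ T, ∃ z : ℤ, |(t : ℤ) - t₀ - z * M| ≤ W) : T.card ≤ 2 * W + 1 := by
  choose! z hz using h
  have hM0 : (0 : ℤ) < M := by exact_mod_cast hM
  have h1 : T.card ≤ (Icc (-(W : ℤ)) W).card := by
    apply card_le_card_of_injOn (fun t : ℕ => (t : ℤ) - t₀ - z t * M)
    · intro t ht
      have := hz t ht
      rw [abs_le] at this
      rw [mem_coe, mem_Icc]
      exact this
    · intro t ht t' ht' he
      have h1 := mem_range.1 (hT ht)
      have h2 := mem_range.1 (hT ht')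
      simp only at he
      have h3 : (t : ℤ) - t' = (z t - z t') * M := by linarith
      have h4 : z t - z t' = 0 := by
        by_contra hne
        rcases lt_or_gt_of_ne hne with h5 | h5
        · have : (z t - z t') * M ≤ -1 * M := mul_le_mul_of_nonneg_right (by omega) hM0.le
          omega
        · have : 1 * (M : ℤ) ≤ (z t - z t') * M := mul_le_mul_of_nonneg_right (by omega) hM0.le
          omega
      rw [h4, zero_mul] at h3
      omega
  rw [Int.card_Icc] at h1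
  omega

open Classical in
/-- simultaneous approximation for two numbers -/
theorem two_near {M b₁ b₂ : ℕ} (hM : 1 ≤ M) (h1 : 1 ≤ b₁) (h2 : 1 ≤ b₂) {δ : ℝ} (hδ : 0 < δ) :
    (((range M).filter (fun t => Near M δ t b₁ ∧ Near M δ t b₂)).card : ℝ) ≤
      (2 * (δ * (b₁ + b₂)) + Nat.gcd b₁ b₂) * (4 * (δ * M / b₁) + 1) := by
  obtain ⟨T, hT⟩ : ∃ T : Finset ℕ, T = (range M).filter (fun t => Near M δ t b₁ ∧ Near M δ t b₂) := ⟨_, rfl⟩
  rw [← hT]
  obtain ⟨g, hg⟩ : ∃ g : ℕ, g = Nat.gcd b₁ b₂ := ⟨_, rfl⟩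
  rw [← hg]
  have hg1 : 1 ≤ g := by rw [hg]; exact Nat.gcd_pos_of_pos_left _ h1
  obtain ⟨d₁, hd₁⟩ : g ∣ b₁ := by rw [hg]; exact Nat.gcd_dvd_left _ _
  obtain ⟨d₂, hd₂⟩ : g ∣ b₂ := by rw [hg]; exact Nat.gcd_dvd_right _ _
  have hd1 : 1 ≤ d₁ := by
    rcases Nat.eq_zero_or_pos d₁ with h | h
    · rw [h, mul_zero] at hd₁; omega
    · exact h
  have hd2 : 1 ≤ d₂ := by
    rcases Nat.eq_zero_or_pos d₂ with h | h
    · rw [h, mul_zero] at hd₂; omega
    · exact h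
  have hco : Nat.Coprime d₁ d₂ := by
    have h3 : Nat.gcd b₁ b₂ = g * Nat.gcd d₁ d₂ := by rw [hd₁, hd₂, Nat.gcd_mul_left]
    rw [← hg] at h3
    have h4 : g * 1 = g * Nat.gcd d₁ d₂ := by rw [mul_one]; exact h3
    exact (Nat.eq_of_mul_eq_mul_left hg1 h4).symm
  have hM0 : (0 : ℝ) < M := by exact_mod_cast hM
  have hb1 : (0 : ℝ) < b₁ := by exact_mod_cast h1
  have hb2 : (0 : ℝ) < b₂ := by exact_mod_cast h2
  have hg0 : (0 : ℝ) < g := by exact_mod_cast hg1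
  have hex : ∀ t ∈ T, ∃ pq : ℤ × ℤ, |(b₁ : ℝ) * t / M - pq.1| < δ ∧ |(b₂ : ℝ) * t / M - pq.2| < δ := by
    intro t ht
    rw [hT, mem_filter] at ht
    obtain ⟨⟨p, hp⟩, q, hq⟩ := ht.2
    exact ⟨(p, q), hp, hq⟩
  choose! pq hpq using hex
  -- the invariants
  obtain ⟨H, hH⟩ : ∃ H : ℕ → ℤ × ℤ, H = fun t => ((pq t).1 * d₂ - (pq t).2 * d₁, ((pq t).1 / (d₁ : ℤ)) % (g : ℤ)) := ⟨_, rfl⟩
  obtain ⟨W, hW⟩ : ∃ W : ℕ, W = ⌊2 * (δ * M / b₁)⌋₊ := ⟨_, rfl⟩
  obtain ⟨Y, hY⟩ : ∃ Y : ℕ, Y = ⌊δ * (b₁ + b₂) / g⌋₊ := ⟨_, rfl⟩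
  have hHb : ∀ t ∈ T, H t ∈ (Icc (-(Y : ℤ)) Y) ×ˢ (Ico (0 : ℤ) g) := by
    intro t ht
    obtain ⟨h3, h4⟩ := hpq t ht
    rw [mem_product]
    constructor
    · have h5 : |((H t).1 : ℝ)| ≤ δ * (b₁ + b₂) / g := by
        rw [le_div_iff₀ hg0]
        have e : ((H t).1 : ℝ) * g = (b₂ * t / M - (pq t).2) * b₁ - (b₁ * t / M - (pq t).1) * b₂ := by
          rw [hH, hd₁, hd₂]; push_cast; ring
        have e2 : |((H t).1 : ℝ)| * g = |((H t).1 : ℝ) * g| := by rw [abs_mul, abs_of_pos hg0]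
        rw [e2, e]
        refine (abs_sub _ _).trans ?_
        rw [abs_mul, abs_mul, abs_of_pos hb1, abs_of_pos hb2]
        nlinarith
      have h6 : ((H t).1).natAbs ≤ Y := by
        rw [hY]
        apply Nat.le_floor
        rw [Nat.cast_natAbs, Int.cast_abs]
        exact h5
      rw [mem_Icc]
      omega
    · rw [mem_Ico, hH]
      exact ⟨Int.emod_nonneg _ (by omega), Int.emod_lt_of_pos _ (by omega)⟩
  have hfib : ∀ h ∈ T.image H, (T.filter (fun t => H t = h)).card ≤ 2 * W + 1 := by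
    intro h hh
    rw [mem_image] at hh
    obtain ⟨t₀, ht₀, rfl⟩ := hh
    apply card_near_one hM _ ((filter_subset _ _).trans (by rw [hT]; exact filter_subset _ _)) t₀ W
    intro t ht
    rw [mem_filter] at ht
    have hHt := ht.2
    rw [hH] at hHt
    simp only [Prod.mk.injEq] at hHt
    have h3 : ((pq t).1 - (pq t₀).1) * (d₂ : ℤ) = ((pq t).2 - (pq t₀).2) * d₁ := by
      linarith [hHt.1]
    have h4 : (d₁ : ℤ) ∣ (pq t).1 - (pq t₀).1 := by
      have h5 : (d₁ : ℤ) ∣ ((pq t).1 - (pq t₀).1) * (d₂ : ℤ) := by rw [h3]; exact Dvd.intro_left _ rfl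
      have h6 : IsCoprime (d₁ : ℤ) (d₂ : ℤ) := Nat.isCoprime_iff_coprime.2 hco
      exact h6.dvd_of_dvd_mul_right h5
    have hb : (b₁ : ℤ) ∣ (pq t).1 - (pq t₀).1 := by
      have h5 : (pq t).1 % (d₁ : ℤ) = (pq t₀).1 % (d₁ : ℤ) := (Int.modEq_iff_dvd.2 h4).symm
      have h6 := Int.emod_add_mul_ediv (pq t).1 (d₁ : ℤ)
      have h7 := Int.emod_add_mul_ediv (pq t₀).1 (d₁ : ℤ)
      have h8 : (g : ℤ) ∣ (pq t).1 / (d₁ : ℤ) - (pq t₀).1 / (d₁ : ℤ) := Int.ModEq.dvd (Eq.symm hHt.2)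
      obtain ⟨w, hw⟩ := h8
      refine ⟨w, ?_⟩
      rw [hd₁]
      push_cast
      have h9 : (pq t).1 - (pq t₀).1 = d₁ * ((pq t).1 / (d₁ : ℤ) - (pq t₀).1 / (d₁ : ℤ)) := by linarith
      rw [h9, hw]
      ring
    obtain ⟨z, hz⟩ := hb
    refine ⟨z, ?_⟩
    have e1 := (hpq t ht.1).1
    have e2 := (hpq t₀ ht₀).1
    have hzr : ((pq t).1 : ℝ) - (pq t₀).1 = b₁ * z := by exact_mod_cast hz
    have e3 : (((t : ℤ) - t₀ - z * M : ℤ) : ℝ) =
        ((b₁ * t / M - (pq t).1) - (b₁ * t₀ / M - (pq t₀).1)) * (M / b₁) := by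
      push_cast
      field_simp
      linear_combination (M : ℝ) * hzr
    have e4 : |(((t : ℤ) - t₀ - z * M : ℤ) : ℝ)| ≤ 2 * (δ * M / b₁) := by
      rw [e3, abs_mul, abs_of_pos (by positivity : (0 : ℝ) < M / b₁)]
      have e5 : |((b₁ : ℝ) * t / M - (pq t).1) - (b₁ * t₀ / M - (pq t₀).1)| ≤ 2 * δ := by
        refine (abs_sub _ _).trans ?_
        linarith
      calc _ ≤ 2 * δ * (M / b₁) := mul_le_mul_of_nonneg_right e5 (by positivity)
        _ = _ := by ring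
    have e6 : ((t : ℤ) - t₀ - z * M).natAbs ≤ W := by
      rw [hW]
      apply Nat.le_floor
      rw [Nat.cast_natAbs, Int.cast_abs]
      exact e4
    rw [Int.abs_eq_natAbs]
    exact_mod_cast e6
  have hcard := card_le_mul_card_image T (2 * W + 1) hfib
  have himg : (T.image H).card ≤ (2 * Y + 1) * g := by
    have : T.image H ⊆ (Icc (-(Y : ℤ)) Y) ×ˢ (Ico (0 : ℤ) g) := by
      intro h hh
      rw [mem_image] at hh
      obtain ⟨t, ht, rfl⟩ := hh
      exact hHb t ht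
    have h3 := card_le_card this
    rw [card_product, Int.card_Icc, Int.card_Ico] at h3
    have e1 : ((Y : ℤ) + 1 - -(Y : ℤ)).toNat = 2 * Y + 1 := by omega
    have e2 : ((g : ℤ) - 0).toNat = g := by omega
    rw [e1, e2] at h3
    exact h3
  have hfl1 : (Y : ℝ) ≤ δ * (b₁ + b₂) / g := by rw [hY]; exact Nat.floor_le (by positivity)
  have hfl2 : (W : ℝ) ≤ 2 * (δ * M / b₁) := by rw [hW]; exact Nat.floor_le (by positivity)
  calc (T.card : ℝ) ≤ ((2 * W + 1) * ((2 * Y + 1) * g) : ℕ) := by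
        exact_mod_cast hcard.trans (Nat.mul_le_mul_left _ himg)
    _ = ((2 * (Y : ℝ) + 1) * g) * (2 * W + 1) := by push_cast; ring
    _ ≤ ((2 * (δ * (b₁ + b₂) / g) + 1) * g) * (4 * (δ * M / b₁) + 1) := by
        apply mul_le_mul _ (by linarith) (by positivity) (by positivity)
        exact mul_le_mul_of_nonneg_right (by linarith) hg0.le
    _ = (2 * (δ * (b₁ + b₂)) + g) * (4 * (δ * M / b₁) + 1) := by field_simp

open Classical in
/-- double counting -/
theorem pairs_count {M : ℕ} (𝓑 : Finset ℕ) (δ : ℝ) {g Z : ℝ} (hg : 2 ≤ g)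
    (hZ : ∑ b ∈ 𝓑.offDiag, (((range M).filter (fun t => Near M δ t b.1 ∧ Near M δ t b.2)).card : ℝ) ≤ Z)
    (T : Finset ℕ) (hT : T ⊆ range M) (hTg : ∀ t ∈ T, g ≤ ((𝓑.filter (fun b => Near M δ t b)).card : ℝ)) :
    (T.card : ℝ) * (g ^ 2 / 2) ≤ Z := by
  have h1 : ∀ t ∈ T, g ^ 2 / 2 ≤ ((𝓑.offDiag.filter (fun b => Near M δ t b.1 ∧ Near M δ t b.2)).card : ℝ) := by
    intro t ht
    obtain ⟨F, hF⟩ : ∃ F : Finset ℕ, F = 𝓑.filter (fun b => Near M δ t b) := ⟨_, rfl⟩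
    have hg2 := hTg t ht
    rw [← hF] at hg2
    have e : 𝓑.offDiag.filter (fun b => Near M δ t b.1 ∧ Near M δ t b.2) = F.offDiag := by
      ext b
      rw [mem_filter, mem_offDiag, mem_offDiag, hF, mem_filter, mem_filter]
      tauto
    rw [e, offDiag_card]
    have hc : F.card ≤ F.card * F.card := Nat.le_mul_self _
    rw [Nat.cast_sub hc]
    push_cast
    nlinarith
  have h2 : (T.card : ℝ) * (g ^ 2 / 2) ≤ ∑ t ∈ T, ((𝓑.offDiag.filter (fun b => Near M δ t b.1 ∧ Near M δ t b.2)).card : ℝ) := by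
    rw [← nsmul_eq_mul, ← sum_const]
    exact sum_le_sum h1
  refine h2.trans (le_trans ?_ hZ)
  have h3 : ∑ t ∈ T, ((𝓑.offDiag.filter (fun b => Near M δ t b.1 ∧ Near M δ t b.2)).card : ℝ) =
      ∑ b ∈ 𝓑.offDiag, ((T.filter (fun t => Near M δ t b.1 ∧ Near M δ t b.2)).card : ℝ) := by
    simp only [card_eq_sum_ones, sum_filter]
    push_cast
    rw [sum_comm]
  rw [h3]
  apply sum_le_sum
  intro b _
  exact_mod_cast card_le_card (filter_subset_filter _ hT)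

open Classical in
/-- gcd sums over an interval -/
theorem gcd_sum_le (n : ℕ) : ∑ a ∈ Icc 1 n, ∑ b ∈ Icc 1 n, (Nat.gcd a b : ℝ) ≤ (n : ℝ) ^ 2 * ∑ d ∈ Icc 1 n, 1 / (d : ℝ) := by
  have h1 : ∀ a ∈ Icc 1 n, ∀ b ∈ Icc 1 n, (Nat.gcd a b : ℝ) ≤ ∑ d ∈ Icc 1 n, (d : ℝ) * (if d ∣ a then 1 else 0) * (if d ∣ b then 1 else 0) := by
    intro a ha b hb
    rw [mem_Icc] at ha hb
    have hg : Nat.gcd a b ∈ Icc 1 n := by
      rw [mem_Icc]
      exact ⟨Nat.gcd_pos_of_pos_left _ (by omega), (Nat.gcd_le_left _ (by omega)).trans ha.2⟩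
    refine le_trans (le_of_eq ?_) (single_le_sum (f := fun d : ℕ => (d : ℝ) * (if d ∣ a then 1 else 0) * (if d ∣ b then 1 else 0))
      (fun d _ => by positivity) hg)
    rw [if_pos (Nat.gcd_dvd_left _ _), if_pos (Nat.gcd_dvd_right _ _), mul_one, mul_one]
  have h2 : ∀ d ∈ Icc 1 n, ∑ a ∈ Icc 1 n, (if d ∣ a then (1 : ℝ) else 0) ≤ n / d := by
    intro d hd
    rw [mem_Icc] at hd
    rw [← sum_filter, sum_const, nsmul_eq_mul, mul_one]
    have h3 : ((Icc 1 n).filter (fun a => d ∣ a)).card = n / d := by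
      have := Nat.card_multiples n d
      rw [← this]
      apply card_bij (fun a _ => a - 1)
      · intro a ha
        rw [mem_filter, mem_Icc] at ha
        rw [mem_filter, mem_range]
        refine ⟨by omega, ?_⟩
        rw [Nat.sub_add_cancel (by omega)]
        exact ha.2
      · intro a ha b hb h
        rw [mem_filter, mem_Icc] at ha hb
        omega
      · intro a ha
        rw [mem_filter, mem_range] at ha
        refine ⟨a + 1, ?_, by omega⟩
        rw [mem_filter, mem_Icc]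
        exact ⟨⟨by omega, by omega⟩, ha.2⟩
    rw [h3]
    exact Nat.cast_div_le
  calc ∑ a ∈ Icc 1 n, ∑ b ∈ Icc 1 n, (Nat.gcd a b : ℝ) ≤
      ∑ a ∈ Icc 1 n, ∑ b ∈ Icc 1 n, ∑ d ∈ Icc 1 n, (d : ℝ) * (if d ∣ a then 1 else 0) * (if d ∣ b then 1 else 0) :=
        sum_le_sum fun a ha => sum_le_sum fun b hb => h1 a ha b hb
    _ = ∑ d ∈ Icc 1 n, (d : ℝ) * ((∑ a ∈ Icc 1 n, (if d ∣ a then (1 : ℝ) else 0)) * (∑ b ∈ Icc 1 n, (if d ∣ b then (1 : ℝ) else 0))) := by
        rw [sum_congr rfl fun a _ => sum_comm, sum_comm]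
        apply sum_congr rfl
        intro d _
        rw [sum_mul_sum, mul_sum]
        apply sum_congr rfl
        intro a _
        rw [mul_sum]
        apply sum_congr rfl
        intro b _
        ring
    _ ≤ ∑ d ∈ Icc 1 n, (d : ℝ) * ((n / d) * (n / d)) := by
        apply sum_le_sum
        intro d hd
        apply mul_le_mul_of_nonneg_left _ (Nat.cast_nonneg _)
        exact mul_le_mul (h2 d hd) (h2 d hd) (sum_nonneg fun _ _ => by positivity) (by positivity)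
    _ = (n : ℝ) ^ 2 * ∑ d ∈ Icc 1 n, 1 / (d : ℝ) := by
        rw [mul_sum]
        apply sum_congr rfl
        intro d hd
        rw [mem_Icc] at hd
        have : (d : ℝ) ≠ 0 := by exact_mod_cast (by omega : d ≠ 0)
        field_simp

end Pool.Agent.Helper82K9.TF
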