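import Pool.Agent.Helper82K9.TF.TF1
import Pool.Agent.Helper82K9.TF.TF2

/-! The energy of the union of few arithmetic progressions with coprime differences. -/

set_option autoImplicit false

namespace Pool.Agent.Helper82K9.TF

open Finset
open Pool.Agent.H807R2.Dav (ee)
open Pool.Agent.TH212.EH (En)

theorem ee_add' (x y : ℝ) : ee (x + y) = ee x * ee y := by
  rw [← Pool.Agent.H373R2.T7.mk_ee, ← Pool.Agent.H373R2.T7.mk_ee, ← Pool.Agent.H373R2.T7.mk_ee]
  exact Pool.Agent.Helper602.MK.N_J5b.ee_add x y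

/-- the members of the progressions -/
def apv (X : ℕ) (𝓑 : Finset ℕ) (c : ℕ → ℤ) (i : Fin X × {b // b ∈ 𝓑}) : ℤ := c i.2.1 + ((i.1 : ℕ) + 1 : ℤ) * i.2.1

open Classical in
/-- large sums come from many approximations -/
theorem large_near {M X : ℕ} (hM : 1 ≤ M) (hX : 1 ≤ X) (𝓑 : Finset ℕ) (c : ℕ → ℤ) {u : ℝ} (hu : 1 ≤ u) (t : ℕ)
    (h : ((X * 𝓑.card : ℕ) : ℝ) ≤ u * ‖∑ i, ee ((t : ℝ) * ((apv X 𝓑 c i : ℝ) / M))‖) :
    (𝓑.card : ℝ) / (2 * u) ≤ ((𝓑.filter (fun b => Near M (u / X) t b)).card : ℝ) := by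
  have hM0 : (0 : ℝ) < M := by exact_mod_cast hM
  have hX0 : (0 : ℝ) < X := by exact_mod_cast hX
  have hu0 : 0 < u := by linarith
  obtain ⟨G, hG⟩ : ∃ G : Finset ℕ, G = 𝓑.filter (fun b => Near M (u / X) t b) := ⟨_, rfl⟩
  rw [← hG]
  have h1 : ∑ i, ee ((t : ℝ) * ((apv X 𝓑 c i : ℝ) / M)) =
      ∑ b ∈ 𝓑, ee ((t : ℝ) * (c b + b) / M) * ∑ a ∈ range X, ee ((a : ℝ) * ((b : ℝ) * t / M)) := by
    rw [Fintype.sum_prod_type_right, ← sum_coe_sort 𝓑]
    apply sum_congr rfl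
    intro b _
    rw [mul_sum, ← Fin.sum_univ_eq_sum_range (fun a => ee ((t : ℝ) * (c b + b) / M) * ee ((a : ℝ) * ((b : ℝ) * t / M))) X]
    apply sum_congr rfl
    intro a _
    rw [← ee_add']
    congr 1
    unfold apv
    push_cast
    ring
  have h2 : ∀ b ∈ 𝓑, ‖ee ((t : ℝ) * (c b + b) / M) * ∑ a ∈ range X, ee ((a : ℝ) * ((b : ℝ) * t / M))‖ ≤
      (if Near M (u / X) t b then (X : ℝ) else 0) + X / (2 * u) := by
    intro b _
    rw [norm_mul, norm_ee, one_mul]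
    by_cases hb : Near M (u / X) t b
    · rw [if_pos hb]
      have h3 : ‖∑ a ∈ range X, ee ((a : ℝ) * ((b : ℝ) * t / M))‖ ≤ X := by
        refine (norm_sum_le _ _).trans ?_
        rw [sum_congr rfl fun i _ => norm_ee _]
        simp
      have h4 : (0 : ℝ) ≤ X / (2 * u) := by positivity
      linarith
    · rw [if_neg hb, zero_add]
      unfold Near at hb
      push Not at hb
      have h3 := geo_far X ((b : ℝ) * t / M) (u / X) (by positivity) hb
      refine h3.trans (le_of_eq ?_)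
      field_simp
  have h5 : ‖∑ i, ee ((t : ℝ) * ((apv X 𝓑 c i : ℝ) / M))‖ ≤ G.card * X + 𝓑.card * (X / (2 * u)) := by
    rw [h1]
    refine (norm_sum_le _ _).trans ((sum_le_sum h2).trans (le_of_eq ?_))
    rw [sum_add_distrib, sum_const, nsmul_eq_mul, ← sum_filter, ← hG, sum_const, nsmul_eq_mul]
  push_cast at h
  have h6 : (X : ℝ) * 𝓑.card ≤ u * (G.card * X + 𝓑.card * (X / (2 * u))) := h.trans (mul_le_mul_of_nonneg_left h5 hu0.le)
  have h7 : u * (G.card * X + 𝓑.card * (X / (2 * u))) = X * (u * G.card + 𝓑.card / 2) := by field_simp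
  rw [h7] at h6
  have h8 := le_of_mul_le_mul_left h6 hX0
  rw [div_le_iff₀ (by positivity)]
  linarith

open Classical in
/-- **the energy of the union of progressions** -/
theorem ap_energy (D : ℕ) {M X R : ℕ} (hM : 1 ≤ M) (hX : 1 ≤ X) (hR : 1 ≤ R) {L Γ : ℝ} (hL : 1 ≤ L) (hΓ : 1 ≤ Γ) (𝓑 : Finset ℕ)
    (h𝓑 : ∀ b ∈ 𝓑, R ≤ b ∧ b ≤ 2 * R) (hgcd : ∑ b ∈ 𝓑.offDiag, (Nat.gcd b.1 b.2 : ℝ) ≤ Γ * (𝓑.card : ℝ) ^ 2)
    (h1 : (M : ℝ) ≤ L * (X * R)) (h2 : (R : ℝ) ≤ L * X) (h3 : M ≤ 𝓑.card ^ D) (c : ℕ → ℤ) :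
    (En (D + 4) (apv X 𝓑 c) : ℝ) * M ≤ 2 * ((360 + 4 ^ D) * (L ^ 2 * Γ)) ^ 2 * ((X * 𝓑.card : ℕ) : ℝ) ^ (2 * (D + 4)) := by
  have hcard : Fintype.card (Fin X × {b // b ∈ 𝓑}) = X * 𝓑.card := by
    rw [Fintype.card_prod, Fintype.card_fin, Fintype.card_coe]
  have hX0 : (0 : ℝ) < X := by exact_mod_cast hX
  have hR0 : (0 : ℝ) < R := by exact_mod_cast hR
  have hM0 : (0 : ℝ) < M := by exact_mod_cast hM
  have hL0 : 0 < L := by linarith
  have hΓ0 : 0 < Γ := by linarith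
  have key := energy_of_count (apv X 𝓑 c) hM (K := (360 + 4 ^ D) * (L ^ 2 * Γ)) (D + 4) (by omega) (by
    intro u hu
    rw [hcard]
    have hu0 : 0 < u := by linarith
    obtain ⟨T, hT⟩ : ∃ T : Finset ℕ, T = (range M).filter (fun t : ℕ => ((X * 𝓑.card : ℕ) : ℝ) ≤
      u * ‖∑ i, ee ((t : ℝ) * ((apv X 𝓑 c i : ℝ) / M))‖) := ⟨_, rfl⟩
    rw [← hT]
    have hTM : T ⊆ range M := by rw [hT]; exact filter_subset _ _
    have hL2 : 1 ≤ L ^ 2 * Γ := one_le_mul_of_one_le_of_one_le (one_le_pow₀ hL) hΓ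
    rcases lt_or_ge ((𝓑.card : ℝ) / (2 * u)) 2 with hs | hb
    · -- few differences
      rw [div_lt_iff₀ (by positivity)] at hs
      have e1 : (T.card : ℝ) ≤ M := by
        have := card_le_card hTM
        rw [card_range] at this
        exact_mod_cast this
      have e2 : (M : ℝ) ≤ (𝓑.card : ℝ) ^ D := by exact_mod_cast h3
      have e3 : (𝓑.card : ℝ) ^ D ≤ (4 * u) ^ D := pow_le_pow_left₀ (Nat.cast_nonneg _) (by linarith) D
      have e4 : u ^ D ≤ u ^ (D + 4) := pow_le_pow_right₀ hu (by omega)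
      calc (T.card : ℝ) ≤ (4 * u) ^ D := e1.trans (e2.trans e3)
        _ = 4 ^ D * u ^ D := mul_pow _ _ _
        _ ≤ 4 ^ D * u ^ (D + 4) := mul_le_mul_of_nonneg_left e4 (by positivity)
        _ ≤ (360 + 4 ^ D) * (L ^ 2 * Γ) * u ^ (D + 4) := by
            apply mul_le_mul_of_nonneg_right _ (by positivity)
            have : (0 : ℝ) ≤ 4 ^ D := by positivity
            nlinarith
    · -- many differences
      have hZ1 : ∀ b ∈ 𝓑.offDiag,
          (((range M).filter (fun t => Near M (u / X) t b.1 ∧ Near M (u / X) t b.2)).card : ℝ) ≤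
            45 * (u ^ 2 * L ^ 2) * (Nat.gcd b.1 b.2 : ℝ) := by
        intro b hbb
        rw [mem_offDiag] at hbb
        obtain ⟨g1, g2⟩ := h𝓑 b.1 hbb.1
        obtain ⟨g3, g4⟩ := h𝓑 b.2 hbb.2.1
        refine (two_near hM (by omega) (by omega) (by positivity)).trans ?_
        have g1' : (R : ℝ) ≤ b.1 := by exact_mod_cast g1
        have g2' : (b.1 : ℝ) ≤ 2 * R := by exact_mod_cast g2
        have g4' : (b.2 : ℝ) ≤ 2 * R := by exact_mod_cast g4
        have hb0 : (0 : ℝ) < b.1 := by linarith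
        have hg1 : (1 : ℝ) ≤ (Nat.gcd b.1 b.2 : ℝ) := by
          exact_mod_cast Nat.gcd_pos_of_pos_left _ (by omega : 0 < b.1)
        have e1 : u / X * (b.1 + b.2) ≤ 4 * (u * L) := by
          rw [div_mul_eq_mul_div, div_le_iff₀ hX0]
          nlinarith
        have e2 : u / X * M / b.1 ≤ u * L := by
          rw [div_mul_eq_mul_div, div_div, div_le_iff₀ (by positivity)]
          calc u * M ≤ u * (L * (X * R)) := mul_le_mul_of_nonneg_left h1 hu0.le
            _ ≤ u * (L * (X * b.1)) := by gcongr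
            _ = _ := by ring
        have e3 : 1 ≤ u * L := one_le_mul_of_one_le_of_one_le hu hL
        have e4 : 2 * (u / X * (b.1 + b.2)) + (Nat.gcd b.1 b.2 : ℝ) ≤ 9 * (u * L) * (Nat.gcd b.1 b.2 : ℝ) := by
          have e5 : u * L ≤ u * L * (Nat.gcd b.1 b.2 : ℝ) := le_mul_of_one_le_right (by positivity) hg1
          have e6 : (Nat.gcd b.1 b.2 : ℝ) ≤ u * L * (Nat.gcd b.1 b.2 : ℝ) := le_mul_of_one_le_left (by positivity) e3
          linarith
        calc (2 * (u / X * (b.1 + b.2)) + (Nat.gcd b.1 b.2 : ℝ)) * (4 * (u / X * M / b.1) + 1) ≤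
            (9 * (u * L) * (Nat.gcd b.1 b.2 : ℝ)) * (5 * (u * L)) := by
              apply mul_le_mul e4 (by linarith) (by positivity) (by positivity)
          _ = _ := by ring
      have hZ : ∑ b ∈ 𝓑.offDiag, (((range M).filter (fun t => Near M (u / X) t b.1 ∧ Near M (u / X) t b.2)).card : ℝ) ≤
          45 * (u ^ 2 * L ^ 2) * (Γ * (𝓑.card : ℝ) ^ 2) := by
        refine (sum_le_sum hZ1).trans ?_
        rw [← mul_sum]
        exact mul_le_mul_of_nonneg_left hgcd (by positivity)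
      have hg := pairs_count 𝓑 (u / X) hb hZ T hTM (by
        intro t ht
        rw [hT, mem_filter] at ht
        exact large_near hM hX 𝓑 c hu t ht.2)
      have hB0 : (0 : ℝ) < 𝓑.card := by
        by_contra hcon
        have : (𝓑.card : ℝ) = 0 := le_antisymm (not_lt.1 hcon) (Nat.cast_nonneg _)
        rw [this, zero_div] at hb
        linarith
      have e1 : (T.card : ℝ) ≤ 360 * ((L ^ 2 * Γ) * u ^ 4) := by
        have e2 : (T.card : ℝ) * (((𝓑.card : ℝ) / (2 * u)) ^ 2 / 2) = (𝓑.card : ℝ) ^ 2 * ((T.card : ℝ) / (8 * u ^ 2)) := by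
          field_simp
          ring
        have e5 : 45 * (u ^ 2 * L ^ 2) * (Γ * (𝓑.card : ℝ) ^ 2) = (𝓑.card : ℝ) ^ 2 * (45 * (u ^ 2 * (L ^ 2 * Γ))) := by ring
        rw [e2, e5] at hg
        have e3 := le_of_mul_le_mul_left hg (by positivity)
        rw [div_le_iff₀ (by positivity)] at e3
        calc (T.card : ℝ) ≤ 45 * (u ^ 2 * (L ^ 2 * Γ)) * (8 * u ^ 2) := e3
          _ = _ := by ring
      have e4 : u ^ 4 ≤ u ^ (D + 4) := pow_le_pow_right₀ hu (by omega)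
      calc (T.card : ℝ) ≤ 360 * ((L ^ 2 * Γ) * u ^ 4) := e1
        _ ≤ 360 * ((L ^ 2 * Γ) * u ^ (D + 4)) := by gcongr
        _ = 360 * (L ^ 2 * Γ) * u ^ (D + 4) := by ring
        _ ≤ (360 + 4 ^ D) * (L ^ 2 * Γ) * u ^ (D + 4) := by
            apply mul_le_mul_of_nonneg_right _ (by positivity)
            apply mul_le_mul_of_nonneg_right _ (by positivity)
            have : (0 : ℝ) ≤ 4 ^ D := by positivity
            linarith)
  rw [hcard] at key
  exact key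

end Pool.Agent.Helper82K9.TF
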