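import Pool.Agent.Results.MP_5d318d_nt.ThinFamilyModuli
import Pool.Agent.R501.LP1
import Pool.Agent.Helper82K9.TF.TF1

/-! Least primes in almost all classes for almost all moduli of a thin family of nearly minimal energy. -/

set_option autoImplicit false

namespace Pool.Agent.Helper82K9.TF

open Finset
open Pool.Agent.TH212.EH (En)
open Pool.Agent.R501.LP (LpG lpg_iff lpg_of_var)

open Classical in
/-- the energy of a family with values in a short interval is large -/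
theorem energy_low {ι : Type} [Fintype ι] (h : ℕ) (v : ι → ℤ) (H : ℕ) (T : Finset ι)
    (hT : ∀ i ∈ T, 1 ≤ v i ∧ v i ≤ H) (hh : 1 ≤ h) : T.card ^ (2 * h) ≤ (h * H) * En h v := by
  obtain ⟨f, hf⟩ : ∃ f : (Fin h → {i // i ∈ T}) → ℤ, f = fun a => ∑ j, v (a j).1 := ⟨_, rfl⟩
  have hrange : ∀ a, f a ∈ Icc (1 : ℤ) ((h * H : ℕ) : ℤ) := by
    intro a
    rw [hf, mem_Icc]
    constructor
    · have h1 : ∑ j : Fin h, (1 : ℤ) ≤ ∑ j, v (a j).1 := sum_le_sum fun j _ => (hT _ (a j).2).1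
      simp only [sum_const, card_univ, Fintype.card_fin, nsmul_eq_mul, mul_one] at h1
      simp only
      omega
    · have h1 : ∑ j, v (a j).1 ≤ ∑ j : Fin h, (H : ℤ) := sum_le_sum fun j _ => (hT _ (a j).2).2
      simp only [sum_const, card_univ, Fintype.card_fin, nsmul_eq_mul] at h1
      push_cast
      exact h1
  have h1 : (T.card ^ h) ^ 2 ≤ (h * H) * ∑ s ∈ Icc (1 : ℤ) ((h * H : ℕ) : ℤ), ((univ.filter (fun a => f a = s)).card) ^ 2 := by
    have h2 : ∑ s ∈ Icc (1 : ℤ) ((h * H : ℕ) : ℤ), (univ.filter (fun a => f a = s)).card = T.card ^ h := by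
      rw [← card_eq_sum_card_fiberwise (fun a _ => hrange a), card_univ, Fintype.card_fun, Fintype.card_fin, Fintype.card_coe]
    have h3 := sq_sum_le_card_mul_sum_sq (s := Icc (1 : ℤ) ((h * H : ℕ) : ℤ)) (f := fun s => (univ.filter (fun a => f a = s)).card)
    rw [h2, Int.card_Icc] at h3
    have e : ((((h * H : ℕ) : ℤ) + 1 - 1).toNat) = h * H := by omega
    rw [e] at h3
    exact h3
  have h4 : ∑ s ∈ Icc (1 : ℤ) ((h * H : ℕ) : ℤ), ((univ.filter (fun a => f a = s)).card) ^ 2 ≤ En h v := by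
    have h5 : ∑ s ∈ Icc (1 : ℤ) ((h * H : ℕ) : ℤ), ((univ.filter (fun a => f a = s)).card) ^ 2 =
        ((univ : Finset ((Fin h → {i // i ∈ T}) × (Fin h → {i // i ∈ T}))).filter (fun q => f q.1 = f q.2)).card := by
      rw [card_eq_sum_card_fiberwise (s := (univ : Finset ((Fin h → {i // i ∈ T}) × (Fin h → {i // i ∈ T}))).filter
        (fun q => f q.1 = f q.2)) (t := Icc (1 : ℤ) ((h * H : ℕ) : ℤ)) (f := fun q => f q.1) (fun q _ => hrange q.1)]
      apply sum_congr rfl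
      intro s _
      rw [pow_two, ← card_product]
      congr 1
      ext q
      simp only [mem_product, mem_filter, mem_univ, true_and]
      constructor
      · rintro ⟨h6, h7⟩; exact ⟨h6.trans h7.symm, h6⟩
      · rintro ⟨h6, h7⟩; exact ⟨h7, h6.symm.trans h7⟩
    rw [h5]
    unfold En
    rw [Nat.card_eq_fintype_card, Fintype.card_subtype]
    apply card_le_card_of_injOn (fun q => (fun j => (q.1 j).1, fun j => (q.2 j).1))
    · intro q hq
      rw [mem_coe, mem_filter] at hq ⊢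
      refine ⟨mem_univ _, ?_⟩
      have := hq.2
      rw [hf] at this
      exact this
    · intro q _ q' _ he
      simp only [Prod.mk.injEq] at he
      apply Prod.ext
      · funext j; exact Subtype.ext (congrFun he.1 j)
      · funext j; exact Subtype.ext (congrFun he.2 j)
  calc T.card ^ (2 * h) = (T.card ^ h) ^ 2 := by rw [← pow_mul, mul_comm]
    _ ≤ (h * H) * En h v := h1.trans (Nat.mul_le_mul_left _ h4)

open Classical in
/-- small values are rare -/
theorem few_small (h C U : ℕ) (hh : 1 ≤ h) : ∃ W N₀ : ℕ, ∀ W' : ℕ, W ≤ W' → ∀ N : ℕ, N₀ ≤ N → ∀ (ι : Type) [Fintype ι]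
    (v : ι → ℤ), (En h v : ℝ) * N ≤ Real.log N ^ C * (Fintype.card ι : ℝ) ^ (2 * h) →
    ((univ.filter (fun i => 0 < v i ∧ (v i : ℝ) * Real.log N ^ W' < N)).card : ℝ) ≤ Fintype.card ι / Real.log N ^ U := by
  obtain ⟨n1, h1⟩ := Pool.Agent.H373R2.T7.ev_log' 1 ((h : ℝ) + 1)
  obtain ⟨n2, h2⟩ : ∃ n : ℕ, ∀ N : ℕ, n ≤ N → (h : ℝ) + 1 ≤ Real.log N := by
    have ht : Filter.Tendsto (fun N : ℕ => Real.log (N : ℝ)) Filter.atTop Filter.atTop :=
      Real.tendsto_log_atTop.comp tendsto_natCast_atTop_atTop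
    exact Filter.eventually_atTop.1 (ht.eventually_ge_atTop _)
  refine ⟨C + 1 + 2 * h * U, n2 + 1, fun W' hW' N hN ι _ v hE => ?_⟩
  have hL := h2 N (by omega)
  have hhR : (1 : ℝ) ≤ h := by exact_mod_cast hh
  obtain ⟨L, hLe⟩ : ∃ L, L = Real.log (N : ℝ) := ⟨_, rfl⟩
  rw [← hLe] at hL hE ⊢
  have hL1 : 1 ≤ L := by linarith
  have hL0 : 0 < L := by linarith
  have hN0 : (0 : ℝ) < N := by exact_mod_cast (by omega : 0 < N)
  obtain ⟨T, hT⟩ : ∃ T : Finset ι, T = univ.filter (fun i => 0 < v i ∧ (v i : ℝ) * L ^ W' < N) := ⟨_, rfl⟩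
  rw [← hT]
  obtain ⟨H, hH⟩ : ∃ H : ℕ, H = ⌊(N : ℝ) / L ^ W'⌋₊ := ⟨_, rfl⟩
  have hTH : ∀ i ∈ T, 1 ≤ v i ∧ v i ≤ H := by
    intro i hi
    rw [hT, mem_filter] at hi
    obtain ⟨-, h3, h4⟩ := hi
    refine ⟨by omega, ?_⟩
    have h5 : ((v i).toNat : ℤ) = v i := Int.toNat_of_nonneg h3.le
    have h6 : (v i).toNat ≤ H := by
      rw [hH]
      apply Nat.le_floor
      rw [le_div_iff₀ (by positivity)]
      have h7 : (((v i).toNat : ℕ) : ℝ) = (v i : ℝ) := by exact_mod_cast h5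
      rw [h7]
      exact h4.le
    omega
  have h3 := energy_low h v H T hTH hh
  have h4 : (T.card : ℝ) ^ (2 * h) ≤ (h * H) * En h v := by exact_mod_cast h3
  have h5 : (H : ℝ) ≤ N / L ^ W' := by rw [hH]; exact Nat.floor_le (by positivity)
  have hE0 : (0 : ℝ) ≤ En h v := Nat.cast_nonneg _
  obtain ⟨Z, hZ⟩ : ∃ Z : ℝ, Z = (Fintype.card ι : ℝ) := ⟨_, rfl⟩
  rw [← hZ] at hE ⊢
  have hZ0 : 0 ≤ Z := by rw [hZ]; exact Nat.cast_nonneg _
  have h6 : (T.card : ℝ) ^ (2 * h) ≤ (Z / L ^ U) ^ (2 * h) := by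
    calc (T.card : ℝ) ^ (2 * h) ≤ (h * H) * En h v := h4
      _ ≤ (h * (N / L ^ W')) * En h v := by gcongr
      _ = h / L ^ W' * (En h v * N) := by ring
      _ ≤ h / L ^ W' * (L ^ C * Z ^ (2 * h)) := by gcongr
      _ ≤ L / L ^ W' * (L ^ C * Z ^ (2 * h)) := by
          apply mul_le_mul_of_nonneg_right _ (by positivity)
          apply div_le_div_of_nonneg_right _ (by positivity)
          linarith
      _ = L ^ (C + 1) / L ^ W' * Z ^ (2 * h) := by rw [pow_succ]; ring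
      _ ≤ L ^ (C + 1) / L ^ (C + 1 + 2 * h * U) * Z ^ (2 * h) := by
          apply mul_le_mul_of_nonneg_right _ (by positivity)
          apply div_le_div_of_nonneg_left (by positivity) (by positivity)
          exact pow_le_pow_right₀ hL1 hW'
      _ = Z ^ (2 * h) / L ^ (2 * h * U) := by
          rw [pow_add L (C + 1)]
          field_simp
      _ = (Z / L ^ U) ^ (2 * h) := by
          rw [div_pow, ← pow_mul]
          congr 2
          ring
  exact le_of_pow_le_pow_left₀ (by omega) (by positivity) h6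

open Classical in
/-- LEAST PRIMES IN FAMILIES of moduli of nearly minimal energy -/
theorem lp_family (h C A U : ℕ) (hh : 1 ≤ h) (ε : ℝ) (hε : 0 < ε) (hε1 : ε ≤ 1) : ∃ N₀ : ℕ, ∀ N : ℕ, N₀ ≤ N →
    ∀ (ι : Type) [Fintype ι] (v : ι → ℤ), (∀ i, |v i| ≤ N) →
    (En h v : ℝ) * N ≤ Real.log N ^ C * (Fintype.card ι : ℝ) ^ (2 * h) →
    ((univ.filter (fun i => 0 < v i ∧ ¬ LpG ε A (v i).toNat)).card : ℝ) ≤ Fintype.card ι / Real.log N ^ U := by
  obtain ⟨W, n1, h1⟩ := few_small h C (U + 1) hh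
  obtain ⟨n2, h2⟩ := Pool.Agent.Results.MP_5d318d_nt.ThinFamilyModuli.first h C (max W A) (U + 1) (ε / 4) (by linarith)
    (by linarith)
  obtain ⟨Q₀, h4⟩ := lpg_of_var A ε hε hε1
  obtain ⟨n5, h5⟩ := Pool.Agent.H373R2.T7.ev_log' (max W A) ((Q₀ + 3 : ℕ) : ℝ)
  obtain ⟨n6, h6⟩ : ∃ n : ℕ, ∀ N : ℕ, n ≤ N → (2 : ℝ) ≤ Real.log N := by
    have ht : Filter.Tendsto (fun N : ℕ => Real.log (N : ℝ)) Filter.atTop Filter.atTop :=
      Real.tendsto_log_atTop.comp tendsto_natCast_atTop_atTop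
    exact Filter.eventually_atTop.1 (ht.eventually_ge_atTop _)
  refine ⟨n1 + n2 + n5 + n6 + 3, fun N hN ι _ v hv hE => ?_⟩
  have r1 := h1 (max W A) (le_max_left _ _) N (by omega) ι v hE
  have r2 := h2 N (by omega) ι v hv hE
  have hbig := h5 N (by omega)
  have hL2 := h6 N (by omega)
  unfold Pool.Agent.Results.MP_5d318d_nt.ThinFamilyModuli.exceptions at r2
  have hN3 : 3 ≤ N := by omega
  obtain ⟨L, hLe⟩ : ∃ L, L = Real.log (N : ℝ) := ⟨_, rfl⟩
  have hL0 : 0 < L := by rw [hLe]; linarith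
  have hsub : univ.filter (fun i => 0 < v i ∧ ¬ LpG ε A (v i).toNat) ⊆
      univ.filter (fun i => 0 < v i ∧ (v i : ℝ) * Real.log N ^ (max W A) < N) ∪
      univ.filter (fun i => 0 < v i ∧ (N : ℝ) ≤ v i * Real.log N ^ (max W A) ∧
        ¬ Pool.Agent.Results.MP_5d318d_nt.ThinFamilyModuli.Good (ε / 4) (max W A) N (v i).toNat) := by
    intro i hi
    rw [mem_filter] at hi
    rw [mem_union, mem_filter, mem_filter]
    rcases lt_or_ge ((v i : ℝ) * Real.log N ^ (max W A)) N with h7 | h7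
    · exact Or.inl ⟨mem_univ _, hi.2.1, h7⟩
    · refine Or.inr ⟨mem_univ _, hi.2.1, h7, fun hg => hi.2.2 ?_⟩
      have h8 : (v i : ℝ) = (((v i).toNat : ℕ) : ℝ) := by
        have : (((v i).toNat : ℕ) : ℤ) = v i := Int.toNat_of_nonneg hi.2.1.le
        exact_mod_cast this.symm
      rw [h8] at h7
      have hN0 : (0 : ℝ) < N := by exact_mod_cast (by omega : 0 < N)
      have hN1 : (1 : ℝ) ≤ N := by exact_mod_cast (by omega : 1 ≤ N)
      have hsq : √(N : ℝ) * √(N : ℝ) = N := Real.mul_self_sqrt hN0.le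
      have hs0 : 0 < √(N : ℝ) := Real.sqrt_pos.2 hN0
      have hs1 : 1 ≤ √(N : ℝ) := by rw [Real.one_le_sqrt]; exact hN1
      have hp0 : 0 ≤ Real.log (N : ℝ) ^ (max W A) := pow_nonneg (Real.log_natCast_nonneg _) _
      have h9 : ((Q₀ + 3 : ℕ) : ℝ) ≤ (((v i).toNat : ℕ) : ℝ) := by
        by_contra hcon
        push Not at hcon
        have h10 : (N : ℝ) ≤ ((Q₀ + 3 : ℕ) : ℝ) * Real.log (N : ℝ) ^ (max W A) :=
          h7.trans (mul_le_mul_of_nonneg_right hcon.le hp0)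
        have h11 : √(N : ℝ) * √(N : ℝ) ≤ √(N : ℝ) * 1 := by rw [hsq, mul_one]; linarith
        have h12 : √(N : ℝ) ≤ 1 := le_of_mul_le_mul_left h11 hs0
        have h13 : √(N : ℝ) = 1 := le_antisymm h12 hs1
        rw [h13, one_mul] at hsq
        have h14 : (3 : ℝ) ≤ N := by exact_mod_cast hN3
        linarith
      have h10 : Q₀ + 3 ≤ (v i).toNat := by exact_mod_cast h9
      rw [← lpg_iff ε A _ (by omega)]
      apply h4 _ (by omega)
      intro x hx1 hx2
      refine hg x hx1 (hx2.trans ?_)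
      have hQ0 : (0 : ℝ) ≤ ((v i).toNat : ℝ) := Nat.cast_nonneg _
      apply mul_le_mul_of_nonneg_left _ hQ0
      have hQ1 : 1 ≤ (v i).toNat := by omega
      have hQN : (v i).toNat ≤ N := by
        have h5 := (abs_le.1 (hv i)).2
        omega
      have hlog : Real.log ((v i).toNat : ℝ) ≤ Real.log N :=
        Real.log_le_log (by exact_mod_cast hQ1) (by exact_mod_cast hQN)
      have hlog0 : 0 ≤ Real.log ((v i).toNat : ℝ) := Real.log_natCast_nonneg _
      calc Real.log ((v i).toNat : ℝ) ^ A ≤ Real.log N ^ A := pow_le_pow_left₀ hlog0 hlog A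
        _ ≤ Real.log N ^ (max W A) := pow_le_pow_right₀ (by linarith) (le_max_right _ _)
  have hcard := (card_le_card hsub).trans (card_union_le _ _)
  have hcardR : ((univ.filter (fun i => 0 < v i ∧ ¬ LpG ε A (v i).toNat)).card : ℝ) ≤
      ((univ.filter (fun i => 0 < v i ∧ (v i : ℝ) * Real.log N ^ (max W A) < N)).card : ℝ) +
      ((univ.filter (fun i => 0 < v i ∧ (N : ℝ) ≤ v i * Real.log N ^ (max W A) ∧
        ¬ Pool.Agent.Results.MP_5d318d_nt.ThinFamilyModuli.Good (ε / 4) (max W A) N (v i).toNat)).card : ℝ) := by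
    exact_mod_cast hcard
  refine hcardR.trans ((add_le_add r1 r2).trans ?_)
  rw [← hLe] at hL2 ⊢
  have e1 : (Fintype.card ι : ℝ) / L ^ (U + 1) + (Fintype.card ι : ℝ) / L ^ (U + 1) = (Fintype.card ι : ℝ) / L ^ U * (2 / L) := by
    rw [pow_succ]
    field_simp
    ring
  rw [e1]
  apply mul_le_of_le_one_right (by positivity)
  rw [div_le_one hL0]
  exact hL2

end Pool.Agent.Helper82K9.TF
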