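import Pool.Agent.Helper82K9.TF.TF5

/-! From families of progressions to all classes modulo almost all differences, for properties which depend on `N`. -/

set_option autoImplicit false

namespace Pool.Agent.Helper82K9.TF

open Finset
open Pool.Agent.TH212.EH (En)

open Classical in
/-- ALL CLASSES MODULO ALMOST ALL DIFFERENCES: a property which holds for almost all members of every family of nearly
minimal energy holds for almost all members of all classes modulo almost all differences -/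
theorem all_classes2 (D C U : ℕ) : ∃ N₀ : ℕ, ∀ N : ℕ, N₀ ≤ N → ∀ P : ℕ → Prop,
      (∀ (ι : Type) [Fintype ι] (v : ι → ℤ), (∀ i, |v i| ≤ 8 * (N : ℤ)) →
      (En ((D + 3) + 4) v : ℝ) * N ≤ Real.log N ^ (2 * C + 1) * (Fintype.card ι : ℝ) ^ (2 * ((D + 3) + 4)) →
      ((univ.filter (fun i => 0 < v i ∧ P (v i).toNat)).card : ℝ) ≤ Fintype.card ι / Real.log N ^ (2 * U + 1)) →
      ∀ R : ℕ, 1 ≤ R → R ^ 2 ≤ N → ∀ 𝓑 : Finset ℕ,
      (∀ b ∈ 𝓑, R ≤ b ∧ b ≤ 2 * R) → N ≤ 𝓑.card ^ D →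
      ∑ b ∈ 𝓑.offDiag, (Nat.gcd b.1 b.2 : ℝ) ≤ Real.log N ^ C * (𝓑.card : ℝ) ^ 2 →
      ((𝓑.filter (fun b => ∃ c : ℤ, (N : ℝ) / (b * Real.log N ^ U) < inClass P N b c)).card : ℝ) ≤
        𝓑.card / Real.log N ^ U := by
  obtain ⟨n2, h2⟩ := ev_pow_log (2 * ((360 + 4 ^ (D + 3)) * 8 ^ 2) ^ 2 + 6) 1 le_rfl
  refine ⟨n2 + 2, fun N hN P h1 R hR hRN 𝓑 h𝓑 hcard hgcd => ?_⟩
  obtain ⟨hL, hL1⟩ := h2 N (by omega)
  rw [pow_one] at hL
  obtain ⟨L, hLe⟩ : ∃ L, L = Real.log (N : ℝ) := ⟨_, rfl⟩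
  rw [← hLe] at hL hL1 hgcd h1 ⊢
  have hL0 : 0 < L := by linarith
  have hN0 : (0 : ℝ) < N := by exact_mod_cast (by omega : 0 < N)
  have hR0 : (0 : ℝ) < R := by exact_mod_cast hR
  have hB2 : 2 ≤ 𝓑.card := by
    by_contra hcon
    have h3 : 𝓑.card ≤ 1 := by omega
    have h4 : 𝓑.card ^ D ≤ 1 := pow_le_one' h3 D
    omega
  obtain ⟨X, hX⟩ : ∃ X : ℕ, X = N / R + 2 := ⟨_, rfl⟩
  have hRX : R ≤ N / R := (Nat.le_div_iff_mul_le (by omega)).2 (by rw [← pow_two]; exact hRN)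
  have hXR : N ≤ X * R := by
    have h3 := Nat.div_add_mod N R
    have h4 := Nat.mod_lt N (by omega : R > 0)
    rw [hX]
    nlinarith
  have hX3 : X * R ≤ 3 * N := by
    have h3 : N / R * R ≤ N := Nat.div_mul_le_self _ _
    have h4 : R ≤ N := hRX.trans (Nat.div_le_self _ _)
    rw [hX, add_mul]
    omega
  -- the worst classes
  obtain ⟨𝓑', h𝓑'⟩ : ∃ 𝓑' : Finset ℕ, 𝓑' = 𝓑.filter (fun b => ∃ c : ℤ, (N : ℝ) / (b * L ^ U) < inClass P N b c) := ⟨_, rfl⟩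
  rw [← h𝓑']
  have hex : ∀ b : ℕ, ∃ c' : ℤ, -(b : ℤ) ≤ c' ∧ c' ≤ 0 ∧ (b ∈ 𝓑' → (N : ℝ) / (b * L ^ U) <
      ((univ : Finset (Fin X)).filter (fun a : Fin X => 0 < c' + ((a : ℕ) + 1 : ℤ) * b ∧
        P (c' + ((a : ℕ) + 1 : ℤ) * b).toNat)).card) := by
    intro b
    by_cases hb : b ∈ 𝓑'
    · have hb2 := hb
      rw [h𝓑', mem_filter] at hb2
      obtain ⟨hb3, c, hc⟩ := hb2
      obtain ⟨c', g1, g2, g3⟩ := inClass_le P hR hX (h𝓑 b hb3).1 c
      exact ⟨c', g1.le, g2, fun _ => lt_of_lt_of_le hc (by exact_mod_cast g3)⟩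
    · exact ⟨0, by omega, le_rfl, fun h => absurd h hb⟩
  choose c hc1 hc2 hc3 using hex
  have hv : ∀ i, |apv X 𝓑 c i| ≤ 8 * (N : ℤ) := by
    intro i
    obtain ⟨g1, g2⟩ := h𝓑 i.2.1 i.2.2
    have g3 := hc1 i.2.1
    have g4 := hc2 i.2.1
    have g5 : ((i.1 : ℕ) : ℤ) + 1 ≤ X := by have := i.1.2; omega
    have g6 : (0 : ℤ) ≤ ((i.1 : ℕ) : ℤ) + 1 := by omega
    have g7 : (((i.1 : ℕ) : ℤ) + 1) * (i.2.1 : ℤ) ≤ X * (2 * R) :=
      mul_le_mul g5 (by exact_mod_cast g2) (by omega) (by omega)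
    have g8 : (0 : ℤ) ≤ (((i.1 : ℕ) : ℤ) + 1) * (i.2.1 : ℤ) := by positivity
    have g9 : (X : ℤ) * (2 * R) ≤ 6 * N := by
      have : ((X * R : ℕ) : ℤ) ≤ ((3 * N : ℕ) : ℤ) := by exact_mod_cast hX3
      push_cast at this
      linarith
    have g10 : R ≤ N := hRX.trans (Nat.div_le_self _ _)
    unfold apv
    rw [abs_le]
    constructor
    · have : (i.2.1 : ℤ) ≤ 2 * R := by exact_mod_cast g2
      omega
    · omega
  have hcι : Fintype.card (Fin X × {b // b ∈ 𝓑}) = X * 𝓑.card := by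
    rw [Fintype.card_prod, Fintype.card_fin, Fintype.card_coe]
  have hΓ : 1 ≤ L ^ C := one_le_pow₀ hL1
  have hE := ap_energy (D + 3) (M := N) (X := X) (R := R) (by omega) (by omega) hR (L := 8) (by norm_num) hΓ 𝓑 h𝓑 hgcd
    (by
      have : (N : ℝ) ≤ X * R := by exact_mod_cast hXR
      linarith) (by
      have h3 : (R : ℝ) ≤ X := by exact_mod_cast (by omega : R ≤ X)
      have h4 : (0 : ℝ) ≤ X := Nat.cast_nonneg _
      linarith) (by
      rw [pow_add]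
      calc N ≤ 𝓑.card ^ D := hcard
        _ = 𝓑.card ^ D * 1 := (mul_one _).symm
        _ ≤ 𝓑.card ^ D * 𝓑.card ^ 3 := Nat.mul_le_mul_left _ (Nat.one_le_pow _ _ (by omega))) c
  have hfamE := h1 (Fin X × {b // b ∈ 𝓑}) (apv X 𝓑 c) hv (by
    rw [hcι]
    refine hE.trans (mul_le_mul_of_nonneg_right ?_ (by positivity))
    calc 2 * ((360 + 4 ^ (D + 3)) * (8 ^ 2 * L ^ C)) ^ 2 = 2 * ((360 + 4 ^ (D + 3)) * 8 ^ 2) ^ 2 * L ^ (2 * C) := by
          rw [← mul_assoc, mul_pow _ (L ^ C), ← pow_mul, mul_comm C 2, mul_assoc]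
      _ ≤ L * L ^ (2 * C) := mul_le_mul_of_nonneg_right (by linarith) (by positivity)
      _ = L ^ (2 * C + 1) := by rw [pow_succ]; ring)
  rw [hcι] at hfamE
  -- counting
  have hsum : ∑ b ∈ 𝓑', (((univ : Finset (Fin X)).filter (fun a : Fin X => 0 < c b + ((a : ℕ) + 1 : ℤ) * b ∧
        P (c b + ((a : ℕ) + 1 : ℤ) * b).toNat)).card : ℝ) ≤
      ((univ.filter (fun i => 0 < apv X 𝓑 c i ∧ P (apv X 𝓑 c i).toNat)).card : ℝ) := by
    rw [← Nat.cast_sum]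
    norm_cast
    rw [← card_sigma]
    have hsub : 𝓑' ⊆ 𝓑 := by rw [h𝓑']; exact filter_subset _ _
    apply card_le_card_of_injOn (fun x : (Σ _ : ℕ, Fin X) => if h : x.1 ∈ 𝓑 then ((x.2, ⟨x.1, h⟩) : Fin X × {b // b ∈ 𝓑}) else
      (x.2, ⟨(card_pos.1 (by omega : 0 < 𝓑.card)).choose, (card_pos.1 (by omega : 0 < 𝓑.card)).choose_spec⟩))
    · intro x hx
      rw [mem_coe, mem_sigma] at hx
      have h3 := hsub hx.1
      rw [mem_coe]
      simp only [h3, dite_true]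
      rw [mem_filter] at hx ⊢
      exact ⟨mem_univ _, hx.2.2⟩
    · intro x hx y hy hxy
      rw [mem_coe, mem_sigma] at hx hy
      have h3 := hsub hx.1
      have h4 := hsub hy.1
      simp only [h3, h4, dite_true, Prod.mk.injEq, Subtype.mk.injEq] at hxy
      obtain ⟨x1, x2⟩ := x
      obtain ⟨y1, y2⟩ := y
      simp only at hxy
      obtain ⟨h5, h6⟩ := hxy
      subst h5 h6
      rfl
  have hlow : (𝓑'.card : ℝ) * (N / (2 * R * L ^ U)) ≤ ∑ b ∈ 𝓑', (((univ : Finset (Fin X)).filter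
      (fun a : Fin X => 0 < c b + ((a : ℕ) + 1 : ℤ) * b ∧ P (c b + ((a : ℕ) + 1 : ℤ) * b).toNat)).card : ℝ) := by
    rw [← nsmul_eq_mul, ← sum_const]
    apply sum_le_sum
    intro b hb
    have hb2 := hb
    rw [h𝓑', mem_filter] at hb2
    obtain ⟨g1, g2⟩ := h𝓑 b hb2.1
    refine le_trans ?_ (hc3 b hb).le
    have g3 : (b : ℝ) ≤ 2 * R := by exact_mod_cast g2
    have g4 : (0 : ℝ) < b := by exact_mod_cast (by omega : 0 < b)
    apply div_le_div_of_nonneg_left hN0.le (by positivity)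
    exact mul_le_mul_of_nonneg_right g3 (by positivity)
  have hfin := hlow.trans (hsum.trans hfamE)
  have hB0 : (0 : ℝ) < 𝓑.card := by exact_mod_cast (by omega : 0 < 𝓑.card)
  have hfin2 : (𝓑'.card : ℝ) * (N / (2 * R * L ^ U)) ≤ 3 * N / R * 𝓑.card / L ^ (2 * U + 1) := by
    refine hfin.trans ?_
    push_cast
    have h5 : (X : ℝ) ≤ 3 * N / R := by
      rw [le_div_iff₀ hR0]
      exact_mod_cast hX3
    apply div_le_div_of_nonneg_right _ (by positivity)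
    exact mul_le_mul_of_nonneg_right h5 hB0.le
  have e1 : (𝓑'.card : ℝ) * (N / (2 * R * L ^ U)) = (N / (R * L ^ U)) * ((𝓑'.card : ℝ) / 2) := by field_simp
  have e2 : 3 * N / R * 𝓑.card / L ^ (2 * U + 1) = (N / (R * L ^ U)) * (3 * (𝓑.card / (L ^ U * L))) := by
    have : L ^ (2 * U + 1) = L ^ U * (L ^ U * L) := by rw [pow_succ, two_mul, pow_add]; ring
    rw [this]
    field_simp
  rw [e1, e2] at hfin2
  have h6 := le_of_mul_le_mul_left hfin2 (by positivity)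
  have h7 : (𝓑'.card : ℝ) ≤ 6 * (𝓑.card / (L ^ U * L)) := by linarith
  refine h7.trans ?_
  rw [← div_div, mul_div_assoc', div_le_iff₀ hL0]
  have h8 : (0 : ℝ) ≤ 𝓑.card / L ^ U := by positivity
  have h9 : (6 : ℝ) ≤ L := by
    have : (0 : ℝ) ≤ 2 * ((360 + 4 ^ (D + 3)) * 8 ^ 2) ^ 2 := by positivity
    linarith
  nlinarith

end Pool.Agent.Helper82K9.TF
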