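import Pool.Agent.Helper82K9.TF.TF3
import Pool.Agent.H373R2.NB.Weyl

/-! The energy of families of values of polynomials with different large leading coefficients. -/

set_option autoImplicit false

namespace Pool.Agent.Helper82K9.TF

open Finset
open Pool.Agent.H807R2.Dav (ee)
open Pool.Agent.TH212.EH (En)

/-- the values -/
noncomputable def pv (X : ℕ) (𝓑 : Finset ℕ) (f : ℕ → Polynomial ℤ) (i : Fin X × {b // b ∈ 𝓑}) : ℤ :=
  (f i.2.1).eval ((i.1 : ℕ) : ℤ)

open Classical in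
/-- large sums come from many large sums -/
theorem many_large {X : ℕ} (hX : 1 ≤ X) (𝓑 : Finset ℕ) (f : ℕ → Polynomial ℤ) {u : ℝ} (hu : 1 ≤ u) (τ : ℝ)
    (h : ((X * 𝓑.card : ℕ) : ℝ) ≤ u * ‖∑ i, ee (τ * (pv X 𝓑 f i : ℝ))‖) :
    (𝓑.card : ℝ) / (2 * u) ≤ ((𝓑.filter (fun b => (X : ℝ) ≤ 2 * u *
      ‖∑ a ∈ range X, ee (τ * (((f b).eval (a : ℤ) : ℤ) : ℝ))‖)).card : ℝ) := by
  have hX0 : (0 : ℝ) < X := by exact_mod_cast hX
  have hu0 : 0 < u := by linarith
  obtain ⟨G, hG⟩ : ∃ G : Finset ℕ, G = 𝓑.filter (fun b => (X : ℝ) ≤ 2 * u *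
      ‖∑ a ∈ range X, ee (τ * (((f b).eval (a : ℤ) : ℤ) : ℝ))‖) := ⟨_, rfl⟩
  rw [← hG]
  have h1 : ∑ i, ee (τ * (pv X 𝓑 f i : ℝ)) = ∑ b ∈ 𝓑, ∑ a ∈ range X, ee (τ * (((f b).eval (a : ℤ) : ℤ) : ℝ)) := by
    rw [Fintype.sum_prod_type_right, ← sum_coe_sort 𝓑]
    apply sum_congr rfl
    intro b _
    rw [← Fin.sum_univ_eq_sum_range (fun a : ℕ => ee (τ * (((f b.1).eval (a : ℤ) : ℤ) : ℝ))) X]
    rfl
  have h2 : ∀ b ∈ 𝓑, ‖∑ a ∈ range X, ee (τ * (((f b).eval (a : ℤ) : ℤ) : ℝ))‖ ≤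
      (if (X : ℝ) ≤ 2 * u * ‖∑ a ∈ range X, ee (τ * (((f b).eval (a : ℤ) : ℤ) : ℝ))‖ then (X : ℝ) else 0) + X / (2 * u) := by
    intro b _
    by_cases hb : (X : ℝ) ≤ 2 * u * ‖∑ a ∈ range X, ee (τ * (((f b).eval (a : ℤ) : ℤ) : ℝ))‖
    · rw [if_pos hb]
      have h3 : ‖∑ a ∈ range X, ee (τ * (((f b).eval (a : ℤ) : ℤ) : ℝ))‖ ≤ X := by
        refine (norm_sum_le _ _).trans ?_
        rw [sum_congr rfl fun i _ => norm_ee _]
        simp
      have h4 : (0 : ℝ) ≤ X / (2 * u) := by positivity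
      linarith
    · rw [if_neg hb, zero_add]
      push Not at hb
      rw [le_div_iff₀ (by positivity)]
      linarith
  have h5 : ‖∑ i, ee (τ * (pv X 𝓑 f i : ℝ))‖ ≤ G.card * X + 𝓑.card * (X / (2 * u)) := by
    rw [h1]
    refine (norm_sum_le _ _).trans ((sum_le_sum h2).trans (le_of_eq ?_))
    rw [sum_add_distrib, sum_const, nsmul_eq_mul, ← sum_filter, ← hG, sum_const, nsmul_eq_mul]
  push_cast at h
  have h6 : (X : ℝ) * 𝓑.card ≤ u * (G.card * X + 𝓑.card * (X / (2 * u))) := h.trans (mul_le_mul_of_nonneg_left h5 hu0.le)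
  have h7 : u * (G.card * X + 𝓑.card * (X / (2 * u))) = X * (u * G.card + 𝓑.card / 2) := by field_simp
  rw [h7] at h6
  have h8 := le_of_mul_le_mul_left h6 hX0
  rw [div_le_iff₀ (by positivity)]
  linarith

open Classical in
/-- double counting for a relation -/
theorem pairs_rel {M : ℕ} (𝓑 : Finset ℕ) (P : ℕ → ℕ → Prop) {g Z : ℝ} (hg : 2 ≤ g)
    (hZ : ∑ b ∈ 𝓑.offDiag, (((range M).filter (fun t => P t b.1 ∧ P t b.2)).card : ℝ) ≤ Z)
    (T : Finset ℕ) (hT : T ⊆ range M) (hTg : ∀ t ∈ T, g ≤ ((𝓑.filter (fun b => P t b)).card : ℝ)) :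
    (T.card : ℝ) * (g ^ 2 / 2) ≤ Z := by
  have h1 : ∀ t ∈ T, g ^ 2 / 2 ≤ ((𝓑.offDiag.filter (fun b => P t b.1 ∧ P t b.2)).card : ℝ) := by
    intro t ht
    obtain ⟨F, hF⟩ : ∃ F : Finset ℕ, F = 𝓑.filter (fun b => P t b) := ⟨_, rfl⟩
    have hg2 := hTg t ht
    rw [← hF] at hg2
    have e : 𝓑.offDiag.filter (fun b => P t b.1 ∧ P t b.2) = F.offDiag := by
      ext b
      rw [mem_filter, mem_offDiag, mem_offDiag, hF, mem_filter, mem_filter]
      tauto
    rw [e, offDiag_card]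
    have hc : F.card ≤ F.card * F.card := Nat.le_mul_self _
    rw [Nat.cast_sub hc]
    push_cast
    nlinarith
  have h2 : (T.card : ℝ) * (g ^ 2 / 2) ≤ ∑ t ∈ T, ((𝓑.offDiag.filter (fun b => P t b.1 ∧ P t b.2)).card : ℝ) := by
    rw [← nsmul_eq_mul, ← sum_const]
    exact sum_le_sum h1
  refine h2.trans (le_trans ?_ hZ)
  have h3 : ∑ t ∈ T, ((𝓑.offDiag.filter (fun b => P t b.1 ∧ P t b.2)).card : ℝ) =
      ∑ b ∈ 𝓑.offDiag, ((T.filter (fun t => P t b.1 ∧ P t b.2)).card : ℝ) := by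
    simp only [card_eq_sum_ones, sum_filter]
    push_cast
    rw [sum_comm]
  rw [h3]
  apply sum_le_sum
  intro b _
  exact_mod_cast card_le_card (filter_subset_filter _ hT)

/-- **the energy of the values of polynomials with different leading coefficients** -/
theorem poly_energy (d D : ℕ) (hd : 1 ≤ d) : ∃ (h : ℕ) (A : ℝ), 1 ≤ h ∧ 1 ≤ A ∧
    ∀ (M X R : ℕ), 1 ≤ M → 1 ≤ X → 1 ≤ R → ∀ (L Γ : ℝ), 1 ≤ L → 1 ≤ Γ → ∀ 𝓑 : Finset ℕ,
    (∀ b ∈ 𝓑, R ≤ b ∧ b ≤ 2 * R) → ∑ b ∈ 𝓑.offDiag, (Nat.gcd b.1 b.2 : ℝ) ≤ Γ * (𝓑.card : ℝ) ^ 2 →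
    (M : ℝ) ≤ L * (X ^ d * R) → (R : ℝ) ≤ L * X ^ d → M ≤ 𝓑.card ^ D →
    ∀ f : ℕ → Polynomial ℤ, (∀ b ∈ 𝓑, (f b).natDegree ≤ d ∧ (f b).coeff d = b) →
    (En h (pv X 𝓑 f) : ℝ) * M ≤ 2 * (A * (L ^ 2 * Γ)) ^ 2 * ((X * 𝓑.card : ℕ) : ℝ) ^ (2 * h) := by
  classical
  obtain ⟨c, m, hc, hIW⟩ := Pool.Agent.H373R2.NB.IW_all d hd
  obtain ⟨A₁, hA₁⟩ : ∃ A₁ : ℝ, A₁ = c * 2 ^ m * d.factorial := ⟨_, rfl⟩
  have hcR : (1 : ℝ) ≤ c := by exact_mod_cast hc
  have hfac : (1 : ℝ) ≤ d.factorial := by exact_mod_cast Nat.factorial_pos d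
  have h2m : (1 : ℝ) ≤ 2 ^ m := one_le_pow₀ (by norm_num)
  have hA1 : 1 ≤ A₁ := by
    rw [hA₁]
    exact one_le_mul_of_one_le_of_one_le (one_le_mul_of_one_le_of_one_le hcR h2m) hfac
  have hA0 : 0 < A₁ := by linarith
  refine ⟨(1 + m) * D + (6 * m + 2), 1224 * A₁ ^ 6 + (4 * A₁) ^ D, by omega, ?_, ?_⟩
  · have h1 : 1 ≤ A₁ ^ 6 := one_le_pow₀ hA1
    have h2 : (0 : ℝ) ≤ (4 * A₁) ^ D := by positivity
    linarith
  intro M X R hM hX hR L Γ hL hΓ 𝓑 h𝓑 hgcd h1 h2 h3 f hf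
  have hcard : Fintype.card (Fin X × {b // b ∈ 𝓑}) = X * 𝓑.card := by
    rw [Fintype.card_prod, Fintype.card_fin, Fintype.card_coe]
  have hX0 : (0 : ℝ) < X := by exact_mod_cast hX
  have hR0 : (0 : ℝ) < R := by exact_mod_cast hR
  have hM0 : (0 : ℝ) < M := by exact_mod_cast hM
  have hL0 : 0 < L := by linarith
  have hΓ0 : 0 < Γ := by linarith
  have hL2 : 1 ≤ L ^ 2 * Γ := one_le_mul_of_one_le_of_one_le (one_le_pow₀ hL) hΓ
  have key := energy_of_count (pv X 𝓑 f) hM (K := (1224 * A₁ ^ 6 + (4 * A₁) ^ D) * (L ^ 2 * Γ))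
    ((1 + m) * D + (6 * m + 2)) (by omega) (by
    intro u hu
    rw [hcard]
    have hu0 : 0 < u := by linarith
    obtain ⟨T, hT⟩ : ∃ T : Finset ℕ, T = (range M).filter (fun t : ℕ => ((X * 𝓑.card : ℕ) : ℝ) ≤
      u * ‖∑ i, ee ((t : ℝ) * ((pv X 𝓑 f i : ℝ) / M))‖) := ⟨_, rfl⟩
    rw [← hT]
    have hTM : T ⊆ range M := by rw [hT]; exact filter_subset _ _
    obtain ⟨Q, hQ⟩ : ∃ Q : ℝ, Q = A₁ * u ^ m := ⟨_, rfl⟩
    have hQ1 : 1 ≤ Q := by rw [hQ]; exact one_le_mul_of_one_le_of_one_le hA1 (one_le_pow₀ hu)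
    have hQ0 : 0 < Q := by linarith
    have hK0 : (0 : ℝ) ≤ (4 * A₁) ^ D := by positivity
    have hK1 : (0 : ℝ) ≤ 1224 * A₁ ^ 6 := by positivity
    rcases lt_or_ge ((𝓑.card : ℝ) / (2 * u * Q)) 2 with hs | hb
    · rw [div_lt_iff₀ (by positivity)] at hs
      have e1 : (T.card : ℝ) ≤ M := by
        have := card_le_card hTM
        rw [card_range] at this
        exact_mod_cast this
      have e2 : (M : ℝ) ≤ (𝓑.card : ℝ) ^ D := by exact_mod_cast h3
      have e3 : (𝓑.card : ℝ) ^ D ≤ (4 * A₁ * u ^ (1 + m)) ^ D := by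
        apply pow_le_pow_left₀ (Nat.cast_nonneg _)
        refine hs.le.trans (le_of_eq ?_)
        rw [hQ, pow_add, pow_one]
        ring
      have e4 : u ^ ((1 + m) * D) ≤ u ^ ((1 + m) * D + (6 * m + 2)) := pow_le_pow_right₀ hu (by omega)
      calc (T.card : ℝ) ≤ (4 * A₁ * u ^ (1 + m)) ^ D := e1.trans (e2.trans e3)
        _ = (4 * A₁) ^ D * u ^ ((1 + m) * D) := by rw [mul_pow, ← pow_mul]
        _ ≤ (4 * A₁) ^ D * u ^ ((1 + m) * D + (6 * m + 2)) := mul_le_mul_of_nonneg_left e4 hK0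
        _ ≤ (1224 * A₁ ^ 6 + (4 * A₁) ^ D) * (L ^ 2 * Γ) * u ^ ((1 + m) * D + (6 * m + 2)) := by
            apply mul_le_mul_of_nonneg_right _ (by positivity)
            nlinarith
    · obtain ⟨δ, hδ⟩ : ∃ δ : ℝ, δ = 2 * Q / (X : ℝ) ^ d := ⟨_, rfl⟩
      have hδ0 : 0 < δ := by rw [hδ]; positivity
      obtain ⟨Q₀, hQ₀⟩ : ∃ Q₀ : ℕ, Q₀ = ⌊Q⌋₊ := ⟨_, rfl⟩
      have hQ₀le : (Q₀ : ℝ) ≤ Q := by rw [hQ₀]; exact Nat.floor_le hQ0.le
      obtain ⟨Tq, hTq⟩ : ∃ Tq : ℕ → Finset ℕ, Tq = fun q => (range M).filter (fun t =>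
        (𝓑.card : ℝ) / (2 * u * Q) ≤ ((𝓑.filter (fun b => Near M δ t (q * b))).card : ℝ)) := ⟨_, rfl⟩
      -- the sets cover
      have hcov : T ⊆ (Icc 1 Q₀).biUnion Tq := by
        intro t ht
        have htM := hTM ht
        rw [hT, mem_filter] at ht
        have ht2 : ((X * 𝓑.card : ℕ) : ℝ) ≤ u * ‖∑ i, ee ((t : ℝ) / M * (pv X 𝓑 f i : ℝ))‖ := by
          refine ht.2.trans (le_of_eq ?_)
          congr 2
          apply sum_congr rfl
          intro i _
          congr 1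
          ring
        have hml := many_large hX 𝓑 f hu ((t : ℝ) / M) ht2
        obtain ⟨G, hG⟩ : ∃ G : Finset ℕ, G = 𝓑.filter (fun b => (X : ℝ) ≤ 2 * u *
          ‖∑ a ∈ range X, ee ((t : ℝ) / M * (((f b).eval (a : ℤ) : ℤ) : ℝ))‖) := ⟨_, rfl⟩
        rw [← hG] at hml
        have hGsub : G ⊆ (Icc 1 Q₀).biUnion (fun q => 𝓑.filter (fun b => Near M δ t (q * b))) := by
          intro b hb
          rw [hG, mem_filter] at hb
          obtain ⟨hb1, hb2⟩ := hb
          obtain ⟨g1, g2⟩ := hf b hb1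
          have hph := Pool.Agent.H373R2.NB.Ph_poly d (f b) g1 ((t : ℝ) / M)
          obtain ⟨q, hq1, hq2, a, ha⟩ := hIW X (2 * u) _ _ hX (by linarith) hph (by
            refine hb2.trans (le_of_eq ?_)
            congr 2
            apply sum_congr rfl
            intro x _
            rw [Pool.Agent.H373R2.T7.mk_ee])
          rw [mem_biUnion]
          have hQe : (c : ℝ) * (2 * u) ^ m * d.factorial = Q := by
            rw [hQ, hA₁, mul_pow]; ring
          refine ⟨q * d.factorial, ?_, ?_⟩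
          · rw [mem_Icc]
            refine ⟨Nat.mul_pos hq1 (Nat.factorial_pos d), ?_⟩
            rw [hQ₀]
            apply Nat.le_floor
            push_cast
            rw [← hQe]
            exact mul_le_mul_of_nonneg_right hq2 (Nat.cast_nonneg _)
          · rw [mem_filter]
            refine ⟨hb1, a, ?_⟩
            rw [g2] at ha
            have e1 : (((q * d.factorial * b : ℕ) : ℝ) * t / M - a) = q * ((t : ℝ) / M * ((d.factorial : ℝ) * ((b : ℤ) : ℝ))) - a := by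
              push_cast
              ring
            rw [e1]
            refine lt_of_le_of_lt ha ?_
            rw [hδ]
            apply div_lt_div_of_pos_right _ (by positivity)
            have e2 : (c : ℝ) * (2 * u) ^ m ≤ Q := by
              rw [← hQe]
              exact le_mul_of_one_le_right (by positivity) hfac
            linarith
        have hGc : (G.card : ℝ) ≤ ∑ q ∈ Icc 1 Q₀, ((𝓑.filter (fun b => Near M δ t (q * b))).card : ℝ) := by
          have := (card_le_card hGsub).trans card_biUnion_le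
          exact_mod_cast this
        rw [mem_biUnion]
        by_contra hcon
        push Not at hcon
        have hlt : ∀ q ∈ Icc 1 Q₀, ((𝓑.filter (fun b => Near M δ t (q * b))).card : ℝ) < (𝓑.card : ℝ) / (2 * u * Q) := by
          intro q hq
          have h4 := hcon q hq
          rw [hTq] at h4
          simp only [mem_filter] at h4
          by_contra hcon2
          push Not at hcon2
          exact h4 ⟨htM, hcon2⟩
        rcases Nat.eq_zero_or_pos Q₀ with h0 | h0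
        · rw [h0] at hGc
          simp only [Icc_eq_empty_of_lt (show (0 : ℕ) < 1 by omega), sum_empty] at hGc
          have h4 : 0 < (𝓑.card : ℝ) / (2 * u) := by
            have h5 : 0 < (𝓑.card : ℝ) / (2 * u * Q) := by linarith
            have h6 : 0 < (𝓑.card : ℝ) := by
              by_contra hcon2
              have h7 : (𝓑.card : ℝ) = 0 := le_antisymm (not_lt.1 hcon2) (Nat.cast_nonneg _)
              rw [h7, zero_div] at h5
              exact lt_irrefl _ h5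
            positivity
          linarith
        · have h4 : ∑ q ∈ Icc 1 Q₀, ((𝓑.filter (fun b => Near M δ t (q * b))).card : ℝ) <
              ∑ q ∈ Icc 1 Q₀, (𝓑.card : ℝ) / (2 * u * Q) :=
            sum_lt_sum_of_nonempty ⟨1, mem_Icc.2 ⟨le_rfl, h0⟩⟩ hlt
          rw [sum_const, Nat.card_Icc, nsmul_eq_mul, Nat.add_sub_cancel] at h4
          have h5 : (Q₀ : ℝ) * ((𝓑.card : ℝ) / (2 * u * Q)) ≤ (𝓑.card : ℝ) / (2 * u) := by
            calc (Q₀ : ℝ) * ((𝓑.card : ℝ) / (2 * u * Q)) ≤ Q * ((𝓑.card : ℝ) / (2 * u * Q)) :=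
                  mul_le_mul_of_nonneg_right hQ₀le (by positivity)
              _ = _ := by field_simp
          linarith
      -- each set is small
      have hB0 : (0 : ℝ) < 𝓑.card := by
        by_contra hcon
        have : (𝓑.card : ℝ) = 0 := le_antisymm (not_lt.1 hcon) (Nat.cast_nonneg _)
        rw [this, zero_div] at hb
        linarith
      have hTqc : ∀ q ∈ Icc 1 Q₀, ((Tq q).card : ℝ) ≤ 1224 * (u ^ 2 * Q ^ 5) * (L ^ 2 * Γ) := by
        intro q hq
        rw [mem_Icc] at hq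
        have hqR : (q : ℝ) ≤ Q := le_trans (by exact_mod_cast hq.2) hQ₀le
        have hq0 : (0 : ℝ) < q := by exact_mod_cast hq.1
        have hq1 : (1 : ℝ) ≤ q := by exact_mod_cast hq.1
        have hZ1 : ∀ b ∈ 𝓑.offDiag,
            (((range M).filter (fun t => Near M δ t (q * b.1) ∧ Near M δ t (q * b.2))).card : ℝ) ≤
              153 * (Q ^ 3 * L ^ 2) * (Nat.gcd b.1 b.2 : ℝ) := by
          intro b hbb
          rw [mem_offDiag] at hbb
          obtain ⟨g1, g2⟩ := h𝓑 b.1 hbb.1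
          obtain ⟨g3, g4⟩ := h𝓑 b.2 hbb.2.1
          refine (two_near hM (Nat.mul_pos hq.1 (by omega)) (Nat.mul_pos hq.1 (by omega)) hδ0).trans ?_
          rw [Nat.gcd_mul_left]
          push_cast
          have g1' : (R : ℝ) ≤ b.1 := by exact_mod_cast g1
          have g2' : (b.1 : ℝ) ≤ 2 * R := by exact_mod_cast g2
          have g4' : (b.2 : ℝ) ≤ 2 * R := by exact_mod_cast g4
          have hb0 : (0 : ℝ) < b.1 := by linarith
          have hg1 : (1 : ℝ) ≤ (Nat.gcd b.1 b.2 : ℝ) := by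
            exact_mod_cast Nat.gcd_pos_of_pos_left _ (by omega : 0 < b.1)
          obtain ⟨g, hg⟩ : ∃ g : ℝ, g = (Nat.gcd b.1 b.2 : ℝ) := ⟨_, rfl⟩
          rw [← hg] at hg1 ⊢
          have hXd : (0 : ℝ) < (X : ℝ) ^ d := by positivity
          have e1 : δ * (q * b.1 + q * b.2) ≤ 8 * (Q ^ 2 * L) := by
            rw [hδ, div_mul_eq_mul_div, div_le_iff₀ hXd]
            calc 2 * Q * (q * b.1 + q * b.2) = 2 * Q * (q * (b.1 + b.2)) := by ring
              _ ≤ 2 * Q * (Q * (4 * R)) := by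
                  apply mul_le_mul_of_nonneg_left _ (by positivity)
                  exact mul_le_mul hqR (by linarith) (by positivity) hQ0.le
              _ ≤ 2 * Q * (Q * (4 * (L * X ^ d))) := by
                  apply mul_le_mul_of_nonneg_left _ (by positivity)
                  apply mul_le_mul_of_nonneg_left _ hQ0.le
                  linarith
              _ = _ := by ring
          have e2 : δ * M / (q * b.1) ≤ 2 * (Q * L) := by
            rw [hδ, div_mul_eq_mul_div, div_div, div_le_iff₀ (by positivity)]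
            calc 2 * Q * M ≤ 2 * Q * (L * (X ^ d * R)) := mul_le_mul_of_nonneg_left h1 (by positivity)
              _ ≤ 2 * Q * (L * (X ^ d * (q * b.1))) := by
                  apply mul_le_mul_of_nonneg_left _ (by positivity)
                  apply mul_le_mul_of_nonneg_left _ hL0.le
                  apply mul_le_mul_of_nonneg_left _ hXd.le
                  calc (R : ℝ) ≤ b.1 := g1'
                    _ ≤ q * b.1 := le_mul_of_one_le_left hb0.le hq1
              _ = _ := by ring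
          have e3 : 1 ≤ Q * L := one_le_mul_of_one_le_of_one_le hQ1 hL
          have e4 : 2 * (δ * (q * b.1 + q * b.2)) + q * g ≤ 17 * (Q ^ 2 * L) * g := by
            have e5 : Q ^ 2 * L ≤ Q ^ 2 * L * g := le_mul_of_one_le_right (by positivity) hg1
            have e6 : q * g ≤ Q ^ 2 * L * g := by
              apply mul_le_mul_of_nonneg_right _ (by linarith)
              calc (q : ℝ) ≤ Q := hqR
                _ = Q * 1 := (mul_one _).symm
                _ ≤ Q * (Q * L) := mul_le_mul_of_nonneg_left e3 hQ0.le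
                _ = _ := by ring
            linarith
          have e7 : 4 * (δ * M / (q * b.1)) + 1 ≤ 9 * (Q * L) := by linarith
          calc (2 * (δ * (q * b.1 + q * b.2)) + q * g) * (4 * (δ * M / (q * b.1)) + 1) ≤
              (17 * (Q ^ 2 * L) * g) * (9 * (Q * L)) := by
                apply mul_le_mul e4 e7 (by positivity) (by positivity)
            _ = _ := by ring
        have hZ : ∑ b ∈ 𝓑.offDiag, (((range M).filter (fun t => Near M δ t (q * b.1) ∧ Near M δ t (q * b.2))).card : ℝ) ≤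
            153 * (Q ^ 3 * L ^ 2) * (Γ * (𝓑.card : ℝ) ^ 2) := by
          refine (sum_le_sum hZ1).trans ?_
          rw [← mul_sum]
          exact mul_le_mul_of_nonneg_left hgcd (by positivity)
        have hg := pairs_rel 𝓑 (fun t b => Near M δ t (q * b)) hb hZ (Tq q) (by
          rw [hTq]; exact filter_subset _ _) (by
          intro t ht
          rw [hTq] at ht
          simp only [mem_filter] at ht
          exact ht.2)
        have e2 : ((Tq q).card : ℝ) * (((𝓑.card : ℝ) / (2 * u * Q)) ^ 2 / 2) =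
            (𝓑.card : ℝ) ^ 2 * (((Tq q).card : ℝ) / (8 * u ^ 2 * Q ^ 2)) := by
          field_simp
          ring
        have e5 : 153 * (Q ^ 3 * L ^ 2) * (Γ * (𝓑.card : ℝ) ^ 2) = (𝓑.card : ℝ) ^ 2 * (153 * (Q ^ 3 * (L ^ 2 * Γ))) := by ring
        rw [e2, e5] at hg
        have e3 := le_of_mul_le_mul_left hg (by positivity)
        rw [div_le_iff₀ (by positivity)] at e3
        calc ((Tq q).card : ℝ) ≤ 153 * (Q ^ 3 * (L ^ 2 * Γ)) * (8 * u ^ 2 * Q ^ 2) := e3
          _ = _ := by ring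
      have e1 : (T.card : ℝ) ≤ 1224 * (u ^ 2 * Q ^ 6) * (L ^ 2 * Γ) := by
        have h4 : (T.card : ℝ) ≤ ∑ q ∈ Icc 1 Q₀, ((Tq q).card : ℝ) := by
          have := (card_le_card hcov).trans card_biUnion_le
          exact_mod_cast this
        refine h4.trans ((sum_le_sum hTqc).trans ?_)
        rw [sum_const, Nat.card_Icc, nsmul_eq_mul, Nat.add_sub_cancel]
        calc (Q₀ : ℝ) * (1224 * (u ^ 2 * Q ^ 5) * (L ^ 2 * Γ)) ≤ Q * (1224 * (u ^ 2 * Q ^ 5) * (L ^ 2 * Γ)) :=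
              mul_le_mul_of_nonneg_right hQ₀le (by positivity)
          _ = _ := by ring
      have e4 : u ^ (6 * m + 2) ≤ u ^ ((1 + m) * D + (6 * m + 2)) := pow_le_pow_right₀ hu (by omega)
      calc (T.card : ℝ) ≤ 1224 * (u ^ 2 * Q ^ 6) * (L ^ 2 * Γ) := e1
        _ = 1224 * A₁ ^ 6 * (L ^ 2 * Γ) * u ^ (6 * m + 2) := by
            rw [hQ, mul_pow, ← pow_mul, pow_add u, mul_comm m 6]; ring
        _ ≤ 1224 * A₁ ^ 6 * (L ^ 2 * Γ) * u ^ ((1 + m) * D + (6 * m + 2)) := mul_le_mul_of_nonneg_left e4 (by positivity)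
        _ ≤ (1224 * A₁ ^ 6 + (4 * A₁) ^ D) * (L ^ 2 * Γ) * u ^ ((1 + m) * D + (6 * m + 2)) := by
            apply mul_le_mul_of_nonneg_right _ (by positivity)
            apply mul_le_mul_of_nonneg_right _ (by positivity)
            linarith)
  rw [hcard] at key
  exact key

end Pool.Agent.Helper82K9.TF
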