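import Pool.Agent.Helper82K9.TF.TF5
import Pool.Agent.Helper82K9.TF.TF8

/-! From families of values of polynomials to all polynomials with almost all leading coefficients. -/

set_option autoImplicit false

namespace Pool.Agent.Helper82K9.TF

open Finset
open Pool.Agent.TH212.EH (En)

open Classical in
/-- ALL POLYNOMIALS WITH ALMOST ALL LEADING COEFFICIENTS -/
theorem all_polys (d D C U B : ℕ) (hd : 1 ≤ d) (hB : 2 ≤ B) : ∃ h C' N₀ : ℕ, 1 ≤ h ∧ ∀ X R N : ℕ, 1 ≤ X → 1 ≤ R →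
      R ≤ X ^ d → N = R * X ^ d → N₀ ≤ N → ∀ P : ℕ → Prop,
      (∀ (ι : Type) [Fintype ι] (v : ι → ℤ), (∀ i, |v i| ≤ B * (N : ℤ)) →
      (En h v : ℝ) * N ≤ Real.log N ^ C' * (Fintype.card ι : ℝ) ^ (2 * h) →
      ((univ.filter (fun i => 0 < v i ∧ P (v i).toNat)).card : ℝ) ≤ Fintype.card ι / Real.log N ^ (2 * U + 1)) →
      ∀ 𝓑 : Finset ℕ, (∀ b ∈ 𝓑, R ≤ b ∧ b ≤ 2 * R) → N ≤ 𝓑.card ^ D →
      ∑ b ∈ 𝓑.offDiag, (Nat.gcd b.1 b.2 : ℝ) ≤ Real.log N ^ C * (𝓑.card : ℝ) ^ 2 →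
      ((𝓑.filter (fun b : ℕ => ∃ f : Polynomial ℤ, f.natDegree ≤ d ∧ f.coeff d = (b : ℤ) ∧
        (∀ a < X, |f.eval (a : ℤ)| ≤ B * (N : ℤ)) ∧
        (X : ℝ) / Real.log N ^ U < ((range X).filter (fun a : ℕ => 0 < f.eval (a : ℤ) ∧
          P (f.eval (a : ℤ)).toNat)).card)).card : ℝ) ≤ 𝓑.card / Real.log N ^ U := by
  obtain ⟨h, A, hh, hA, hE0⟩ := poly_energy d D hd
  obtain ⟨n2, h2⟩ := ev_pow_log (2 * A ^ 2 + 1) 1 le_rfl
  refine ⟨h, 2 * C + 1, n2 + 2, hh, fun X R N hX hR hRX hNe hN P hP 𝓑 h𝓑 hcard hgcd => ?_⟩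
  obtain ⟨hL, hL1⟩ := h2 N (by omega)
  rw [pow_one] at hL
  obtain ⟨L, hLe⟩ : ∃ L, L = Real.log (N : ℝ) := ⟨_, rfl⟩
  rw [← hLe] at hL hL1 hgcd hP ⊢
  have hL0 : 0 < L := by linarith
  have hN0 : (0 : ℝ) < N := by exact_mod_cast (by omega : 0 < N)
  have hR0 : (0 : ℝ) < R := by exact_mod_cast hR
  have hX0 : (0 : ℝ) < X := by exact_mod_cast hX
  have hA0 : 0 < A := by linarith
  have hB2 : 2 ≤ 𝓑.card := by
    by_contra hcon
    have h3 : 𝓑.card ≤ 1 := by omega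
    have h4 : 𝓑.card ^ D ≤ 1 := pow_le_one' h3 D
    omega
  have hB0 : (0 : ℝ) < 𝓑.card := by exact_mod_cast (by omega : 0 < 𝓑.card)
  obtain ⟨bad, hbad⟩ : ∃ bad : Polynomial ℤ → Finset ℕ, bad = fun f => (range X).filter (fun a : ℕ => 0 < f.eval (a : ℤ) ∧
          P (f.eval (a : ℤ)).toNat) := ⟨_, rfl⟩
  obtain ⟨𝓑', h𝓑'⟩ : ∃ 𝓑' : Finset ℕ, 𝓑' = 𝓑.filter (fun b : ℕ => ∃ f : Polynomial ℤ, f.natDegree ≤ d ∧ f.coeff d = (b : ℤ) ∧
        (∀ a < X, |f.eval (a : ℤ)| ≤ B * (N : ℤ)) ∧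
        (X : ℝ) / L ^ U < ((range X).filter (fun a : ℕ => 0 < f.eval (a : ℤ) ∧
          P (f.eval (a : ℤ)).toNat)).card) := ⟨_, rfl⟩
  rw [← h𝓑']
  have hex : ∀ b : ℕ, ∃ f : Polynomial ℤ, b ∈ 𝓑 → f.natDegree ≤ d ∧ f.coeff d = b ∧
        (∀ a < X, |f.eval (a : ℤ)| ≤ B * (N : ℤ)) ∧ (b ∈ 𝓑' → (X : ℝ) / L ^ U < (bad f).card) := by
    intro b
    by_cases hb : b ∈ 𝓑'
    · have hb2 := hb
      rw [h𝓑', mem_filter] at hb2
      obtain ⟨hb3, f, g1, g2, g3, g4⟩ := hb2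
      refine ⟨f, fun _ => ⟨g1, g2, g3, fun _ => ?_⟩⟩
      rw [hbad]
      exact g4
    · refine ⟨Polynomial.C (b : ℤ) * Polynomial.X ^ d, fun hb2 => ⟨Polynomial.natDegree_C_mul_X_pow_le _ _, ?_, ?_,
        fun h => absurd h hb⟩⟩
      · rw [Polynomial.coeff_C_mul_X_pow, if_pos rfl]
      · intro a ha
        rw [Polynomial.eval_mul, Polynomial.eval_C, Polynomial.eval_pow, Polynomial.eval_X]
        have g1 := (h𝓑 b hb2).2
        have g2 : b * a ^ d ≤ (2 * R) * X ^ d := Nat.mul_le_mul g1 (Nat.pow_le_pow_left ha.le d)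
        have g3 : (2 * R) * X ^ d ≤ B * N := by
          rw [hNe]
          calc (2 * R) * X ^ d = 2 * (R * X ^ d) := by ring
            _ ≤ B * (R * X ^ d) := Nat.mul_le_mul_right _ hB
        have g4 : ((b * a ^ d : ℕ) : ℤ) ≤ ((B * N : ℕ) : ℤ) := by exact_mod_cast g2.trans g3
        push_cast at g4
        rw [abs_of_nonneg (by positivity)]
        exact g4
  choose f hf using hex
  have hv : ∀ i, |pv X 𝓑 f i| ≤ B * (N : ℤ) := by
    intro i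
    exact (hf i.2.1 i.2.2).2.2.1 i.1 i.1.2
  have hcι : Fintype.card (Fin X × {b // b ∈ 𝓑}) = X * 𝓑.card := by
    rw [Fintype.card_prod, Fintype.card_fin, Fintype.card_coe]
  have hΓ : 1 ≤ L ^ C := one_le_pow₀ hL1
  have hE := hE0 N X R (by omega) hX hR 1 (L ^ C) le_rfl hΓ 𝓑 h𝓑 hgcd
    (by rw [hNe]; push_cast; linarith) (by rw [one_mul]; exact_mod_cast hRX) hcard f
    (fun b hb => ⟨(hf b hb).1, (hf b hb).2.1⟩)
  have hfamE := hP (Fin X × {b // b ∈ 𝓑}) (pv X 𝓑 f) hv (by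
    rw [hcι]
    refine hE.trans (mul_le_mul_of_nonneg_right ?_ (by positivity))
    calc 2 * (A * (1 ^ 2 * L ^ C)) ^ 2 = 2 * A ^ 2 * L ^ (2 * C) := by
          rw [one_pow, one_mul, mul_pow, ← pow_mul, mul_comm C 2, mul_assoc]
      _ ≤ L * L ^ (2 * C) := mul_le_mul_of_nonneg_right (by linarith) (by positivity)
      _ = L ^ (2 * C + 1) := by rw [pow_succ]; ring)
  rw [hcι] at hfamE
  have hsub : 𝓑' ⊆ 𝓑 := by rw [h𝓑']; exact filter_subset _ _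
  have hsum : ∑ b ∈ 𝓑', ((bad (f b)).card : ℝ) ≤
      ((univ.filter (fun i => 0 < pv X 𝓑 f i ∧ P (pv X 𝓑 f i).toNat)).card : ℝ) := by
    rw [← Nat.cast_sum]
    norm_cast
    rw [← card_sigma]
    have hne : 𝓑.Nonempty := card_pos.1 (by omega : 0 < 𝓑.card)
    apply card_le_card_of_injOn (fun x : (Σ _ : ℕ, ℕ) => (((⟨x.2 % X, Nat.mod_lt _ hX⟩ : Fin X),
      if h : x.1 ∈ 𝓑 then (⟨x.1, h⟩ : {b // b ∈ 𝓑}) else ⟨hne.choose, hne.choose_spec⟩) : Fin X × {b // b ∈ 𝓑}))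
    · intro x hx
      rw [mem_coe, mem_sigma] at hx
      have h3 := hsub hx.1
      have h4 := hx.2
      rw [hbad] at h4
      simp only [mem_filter, mem_range] at h4
      rw [mem_coe, mem_filter]
      simp only [h3, dite_true, Nat.mod_eq_of_lt h4.1]
      exact ⟨mem_univ _, h4.2⟩
    · intro x hx y hy hxy
      rw [mem_coe, mem_sigma] at hx hy
      have h3 := hsub hx.1
      have h4 := hsub hy.1
      have h5 := hx.2
      have h6 := hy.2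
      rw [hbad] at h5 h6
      simp only [mem_filter, mem_range] at h5 h6
      simp only [h3, h4, dite_true, Nat.mod_eq_of_lt h5.1, Nat.mod_eq_of_lt h6.1, Prod.mk.injEq, Subtype.mk.injEq,
        Fin.mk.injEq] at hxy
      obtain ⟨x1, x2⟩ := x
      obtain ⟨y1, y2⟩ := y
      simp only at hxy
      obtain ⟨h7, h8⟩ := hxy
      subst h7 h8
      rfl
  have hlow : (𝓑'.card : ℝ) * (X / L ^ U) ≤ ∑ b ∈ 𝓑', ((bad (f b)).card : ℝ) := by
    rw [← nsmul_eq_mul, ← sum_const]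
    apply sum_le_sum
    intro b hb
    exact ((hf b (hsub hb)).2.2.2 hb).le
  have hfin := hlow.trans (hsum.trans hfamE)
  push_cast at hfin
  have e1 : (X : ℝ) * 𝓑.card / L ^ (2 * U + 1) = (X / L ^ U) * (𝓑.card / (L ^ U * L)) := by
    have : L ^ (2 * U + 1) = L ^ U * (L ^ U * L) := by rw [pow_succ, two_mul, pow_add]; ring
    rw [this]
    field_simp
  rw [e1, mul_comm (𝓑'.card : ℝ)] at hfin
  have h6 := le_of_mul_le_mul_left hfin (by positivity)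
  refine h6.trans ?_
  apply div_le_div_of_nonneg_left hB0.le (by positivity)
  exact le_mul_of_one_le_right (by positivity) hL1

end Pool.Agent.Helper82K9.TF
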